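import Pool.Agent.Q192.EC.Tele

set_option linter.style.longLine false

/-!
# From the contractible infinite cyclic cover to the circle
-/

namespace Pool.Agent.Q192.EC

open CategoryTheory Opposite

open scoped unitInterval

/-- A bump function on the unit interval, vanishing near the ends. -/
noncomputable def bump (s : ℝ) : I := Set.projIcc 0 1 zero_le_one (8 * min s (1 - s) - 1)

lemma continuous_bump : Continuous bump :=
  continuous_projIcc.comp ((continuous_const.mul (continuous_id.min (continuous_const.sub continuous_id))).sub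
    continuous_const)

lemma bump_zero {s : ℝ} (h : s ≤ 1 / 8 ∨ 7 / 8 ≤ s) : bump s = 0 := by
  unfold bump
  apply Set.projIcc_of_le_left
  rcases h with h | h
  · have := min_le_left s (1 - s)
    linarith
  · have := min_le_right s (1 - s)
    linarith

lemma bump_one {s : ℝ} (h1 : 1 / 4 ≤ s) (h2 : s ≤ 3 / 4) : bump s = 1 := by
  unfold bump
  apply Set.projIcc_of_right_le
  have : 1 / 4 ≤ min s (1 - s) := le_min h1 (by linarith)
  linarith

section window

variable {T : Type} [TopologicalSpace T] (S : ℤ → C(T, T)) (k : C(T × I, T))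

/-- The contraction, conjugated by the deck transformations and cut off. -/
noncomputable def win (z : T) (r : ℝ) (u : I) : T :=
  S ⌊r⌋ (k (S (-⌊r⌋) z, u * bump (Int.fract r)))

variable (hS : ∀ m n z, S (m + n) z = S m (S n z)) (hS0 : ∀ z, S 0 z = z)
  (hk0 : ∀ z, k (z, 0) = z)

include hS hS0 hk0 in
lemma win_aux (n : ℤ) (z : T) : S n (k (S (-n) z, 0)) = z := by
  rw [hk0, ← hS, add_neg_cancel, hS0]

include hS hS0 hk0 in
lemma continuous_win : Continuous (fun a : T × ℝ × I => win S k a.1 a.2.1 a.2.2) := by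
  rw [continuous_iff_continuousAt]
  rintro ⟨z0, r0, u0⟩
  set n := ⌊r0⌋ with hn
  have hG : Continuous (fun a : T × ℝ × I => S n (k (S (-n) a.1, a.2.2 * bump (a.2.1 - n)))) := by
    refine (S n).continuous.comp (k.continuous.comp (((S (-n)).continuous.comp continuous_fst).prodMk ?_))
    exact (continuous_snd.comp continuous_snd).mul
      (continuous_bump.comp ((continuous_fst.comp continuous_snd).sub continuous_const))
  refine hG.continuousAt.congr ?_
  have hnb : ∀ᶠ a : T × ℝ × I in nhds (z0, r0, u0), a.2.1 ∈ Set.Ioo ((n : ℝ) - 1 / 8) (n + 1) := by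
    have hc : ContinuousAt (fun a : T × ℝ × I => a.2.1) (z0, r0, u0) :=
      (continuous_fst.comp continuous_snd).continuousAt
    apply hc.eventually
    apply Ioo_mem_nhds
    · change (n : ℝ) - 1 / 8 < r0
      have := Int.floor_le r0
      linarith
    · exact Int.lt_floor_add_one r0
  filter_upwards [hnb] with a ha
  obtain ⟨z, r, u⟩ := a
  change S n (k (S (-n) z, u * bump (r - n))) = win S k z r u
  unfold win
  by_cases h : (n : ℝ) ≤ r
  · have h1 : ⌊r⌋ = n := by
      rw [Int.floor_eq_iff]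
      exact ⟨h, ha.2⟩
    have h2 : Int.fract r = r - n := by
      rw [← h1]
      rfl
    rw [h1, h2]
  · push Not at h
    have h1 : ⌊r⌋ = n - 1 := by
      rw [Int.floor_eq_iff]
      push_cast
      have := ha.1
      change (n : ℝ) - 1 / 8 < r at this
      constructor <;> linarith
    have h2 : Int.fract r = r - n + 1 := by
      have : Int.fract r = r - ⌊r⌋ := rfl
      rw [this, h1]
      push_cast
      ring
    have h3 : (n : ℝ) - 1 / 8 < r := ha.1
    rw [bump_zero (Or.inl (by linarith)), h2, bump_zero (s := r - n + 1) (Or.inr (by linarith)), mul_zero,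
      win_aux S k hS hS0 hk0, win_aux S k hS hS0 hk0]

include hS in
lemma win_equiv (m : ℤ) (z : T) (r : ℝ) (u : I) :
    win S k (S m z) (r + m) u = S m (win S k z r u) := by
  unfold win
  rw [Int.floor_add_intCast, Int.fract_add_intCast, ← hS, ← hS]
  have h1 : -(⌊r⌋ + m) + m = -⌊r⌋ := by ring
  rw [h1, add_comm ⌊r⌋ m]

include hS hS0 hk0 in
lemma win_zero (z : T) (r : ℝ) : win S k z r 0 = z := by
  unfold win
  rw [zero_mul, win_aux S k hS hS0 hk0]

lemma win_one (c : T) (hk1 : ∀ z, k (z, 1) = c) (z : T) (r : ℝ) (h1 : 1 / 4 ≤ Int.fract r)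
    (h2 : Int.fract r ≤ 3 / 4) : win S k z r 1 = S ⌊r⌋ c := by
  unfold win
  rw [bump_one h1 h2, mul_one, hk1]

/-- The equivariant path. -/
noncomputable def sec (c : T) (r : ℝ) : T := win S k (win S k c (r + 1 / 2) 1) r 1

lemma sec_eq (c : T) (hk1 : ∀ z, k (z, 1) = c) (z : T) (r : ℝ) :
    win S k (win S k z (r + 1 / 2) 1) r 1 = sec S k c r := by
  unfold sec
  by_cases h : 1 / 4 ≤ Int.fract r ∧ Int.fract r ≤ 3 / 4
  · rw [win_one S k c hk1 _ r h.1 h.2, win_one S k c hk1 _ r h.1 h.2]
  · have h2 : 1 / 4 ≤ Int.fract (r + 1 / 2) ∧ Int.fract (r + 1 / 2) ≤ 3 / 4 := by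
      have e : r = ⌊r⌋ + Int.fract r := (Int.floor_add_fract r).symm
      have f0 := Int.fract_nonneg r
      have f1 := Int.fract_lt_one r
      by_cases h3 : Int.fract r < 1 / 4
      · have h4 : Int.fract (r + 1 / 2) = Int.fract r + 1 / 2 := by
          rw [Int.fract_eq_iff]
          refine ⟨by linarith, by linarith, ⌊r⌋, ?_⟩
          linarith
        rw [h4]
        constructor <;> linarith
      · have h5 : 3 / 4 < Int.fract r := by
          by_contra h6
          exact h ⟨not_lt.1 h3, not_lt.1 h6⟩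
        have h4 : Int.fract (r + 1 / 2) = Int.fract r - 1 / 2 := by
          rw [Int.fract_eq_iff]
          refine ⟨by linarith, by linarith, ⌊r⌋ + 1, ?_⟩
          push_cast
          linarith
        rw [h4]
        constructor <;> linarith
    rw [win_one S k c hk1 z _ h2.1 h2.2, win_one S k c hk1 c _ h2.1 h2.2]

include hS in
lemma sec_equiv (c : T) (hk1 : ∀ z, k (z, 1) = c) (m : ℤ) (r : ℝ) :
    sec S k c (r + m) = S m (sec S k c r) := by
  rw [← sec_eq S k c hk1 (S m c) (r + m)]
  have h1 : r + m + 1 / 2 = (r + 1 / 2) + m := by ring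
  rw [h1, win_equiv S k hS, win_equiv S k hS]
  rfl

include hS hS0 hk0 in
lemma continuous_sec (c : T) : Continuous (sec S k c) := by
  have hw := continuous_win S k hS hS0 hk0
  have h1 : Continuous (fun r : ℝ => win S k c (r + 1 / 2) 1) :=
    hw.comp (continuous_const.prodMk ((continuous_id.add continuous_const).prodMk continuous_const))
  exact hw.comp (h1.prodMk (continuous_id.prodMk continuous_const))

/-- The equivariant homotopy. -/
noncomputable def eqH : C((T × ℝ) × I, T) :=
  conc (Z := T × ℝ) ⟨fun a => win S k a.1.1 (a.1.2 + 1 / 2) a.2, by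
      exact (continuous_win S k hS hS0 hk0).comp ((continuous_fst.comp continuous_fst).prodMk
        (((continuous_snd.comp continuous_fst).add continuous_const).prodMk continuous_snd))⟩
    ⟨fun a => win S k (win S k a.1.1 (a.1.2 + 1 / 2) 1) a.1.2 a.2, by
      have h1 : Continuous (fun a : (T × ℝ) × I => win S k a.1.1 (a.1.2 + 1 / 2) 1) :=
        (continuous_win S k hS hS0 hk0).comp ((continuous_fst.comp continuous_fst).prodMk
          (((continuous_snd.comp continuous_fst).add continuous_const).prodMk continuous_const))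
      exact (continuous_win S k hS hS0 hk0).comp (h1.prodMk ((continuous_snd.comp continuous_fst).prodMk continuous_snd))⟩
    (fun a => (win_zero S k hS hS0 hk0 _ _).symm)

lemma eqH_zero (z : T) (r : ℝ) : eqH S k hS hS0 hk0 ((z, r), 0) = z := by
  unfold eqH
  rw [conc_zero]
  exact win_zero S k hS hS0 hk0 _ _

lemma eqH_one (c : T) (hk1 : ∀ z, k (z, 1) = c) (z : T) (r : ℝ) :
    eqH S k hS hS0 hk0 ((z, r), 1) = sec S k c r := by
  unfold eqH
  rw [conc_one]
  exact sec_eq S k c hk1 z r

lemma eqH_equiv (m : ℤ) (z : T) (r : ℝ) (u : I) :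
    eqH S k hS hS0 hk0 ((S m z, r + m), u) = S m (eqH S k hS hS0 hk0 ((z, r), u)) := by
  unfold eqH
  rw [conc_apply, conc_apply]
  have h1 : r + m + 1 / 2 = (r + 1 / 2) + m := by ring
  split_ifs
  · change win S k (S m z) (r + m + 1 / 2) _ = S m (win S k z (r + 1 / 2) _)
    rw [h1, win_equiv S k hS]
  · change win S k (win S k (S m z) (r + m + 1 / 2) 1) (r + m) _ = S m (win S k (win S k z (r + 1 / 2) 1) r _)
    rw [h1, win_equiv S k hS, win_equiv S k hS]

end window

namespace Tup

section cover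

variable {G : Type} (w : G → G → ℤ)

/-- The infinite cyclic cover of a cocycle. -/
def cov : Tup (G × ℤ) where
  mem n u := ∀ i j, w (u i).1 (u j).1 = (u j).2 - (u i).2
  comp n m x θ h := fun i j => h (θ i) (θ j)

/-- The translation of the vertices. -/
def shv (m : ℤ) (u : G × ℤ) : G × ℤ := (u.1, u.2 + m)

lemma shv_mem (m : ℤ) (n : ℕ) (x : Fin (n + 1) → G × ℤ) (hx : (cov w).mem n x) :
    (cov w).mem n (shv m ∘ x) := fun i j => by
  have := hx i j
  change w (x i).1 (x j).1 = (x j).2 + m - ((x i).2 + m)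
  rw [this]
  ring

/-- The deck transformations. -/
noncomputable def deck (m : ℤ) : C((cov w).R, (cov w).R) :=
  mapR (shv m) (shv_mem w m)

lemma deck_pt (m : ℤ) {n : ℕ} (x : Fin (n + 1) → G × ℤ) (hx : (cov w).mem n x) (p : Sx n) :
    deck w m (pt x hx p) = pt (shv m ∘ x) (shv_mem w m n x hx) p :=
  mapR_pt _ _ _ _ _

lemma deck_add (m n : ℤ) (z : (cov w).R) : deck w (m + n) z = deck w m (deck w n z) := by
  obtain ⟨k, x, hx, p, rfl⟩ := pt_surj z
  rw [deck_pt, deck_pt, deck_pt]
  apply pt_eq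
  funext i
  simp only [shv, Function.comp_apply, Prod.mk.injEq, true_and]
  ring

lemma deck_zero (z : (cov w).R) : deck w 0 z = z := by
  obtain ⟨k, x, hx, p, rfl⟩ := pt_surj z
  rw [deck_pt]
  apply pt_eq
  funext i
  simp [shv]

/-- The height function of the cover. -/
noncomputable def ht : C((cov w).R, ℝ) :=
  desc (fun n u _ => ⟨fun p => ∑ i, p i * ((u i).2 : ℝ),
      continuous_finsetSum _ fun i _ => (continuous_coord i).mul continuous_const⟩)
    (fun n m u hu θ hθ h p => by
      change ∑ i, p i * (((u ∘ θ) i).2 : ℝ) = ∑ j, stdSimplex.map θ p j * ((u j).2 : ℝ)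
      have h1 : ∀ j, stdSimplex.map θ p j * ((u j).2 : ℝ) = ∑ i with θ i = j, p i * ((u (θ i)).2 : ℝ) := by
        intro j
        rw [smap_apply, Finset.sum_mul]
        apply Finset.sum_congr rfl
        intro i hi
        simp only [Finset.mem_filter, Finset.mem_univ, true_and] at hi
        rw [hi]
      simp only [h1]
      rw [Finset.sum_fiberwise]
      rfl)

lemma ht_pt {n : ℕ} (u : Fin (n + 1) → G × ℤ) (hu : (cov w).mem n u) (p : Sx n) :
    ht w (pt u hu p) = ∑ i, p i * ((u i).2 : ℝ) :=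
  desc_pt _ _ _ _ _

lemma ht_deck (m : ℤ) (z : (cov w).R) : ht w (deck w m z) = ht w z + m := by
  obtain ⟨k, x, hx, p, rfl⟩ := pt_surj z
  rw [deck_pt, ht_pt, ht_pt]
  simp only [shv, Function.comp_apply, Int.cast_add, mul_add]
  rw [Finset.sum_add_distrib, ← Finset.sum_mul, stdSimplex.sum_eq_one, one_mul]

variable (X : Tup G) (hX1 : ∀ (n : ℕ) (x : Fin (n + 1) → G), X.mem n x →
    ∀ i j, w (x i) (x j) = w (x 0) (x j) - w (x 0) (x i))
  (hX2 : ∀ (n : ℕ) (u : Fin (n + 1) → G × ℤ), (cov w).mem n u → X.mem n (Prod.fst ∘ u))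

/-- The covering map. -/
noncomputable def cmap : C((cov w).R, X.R) := mapR Prod.fst hX2

lemma cmap_deck (m : ℤ) (z : (cov w).R) : cmap w X hX2 (deck w m z) = cmap w X hX2 z := by
  obtain ⟨k, x, hx, p, rfl⟩ := pt_surj z
  rw [deck_pt]
  unfold cmap
  rw [mapR_pt, mapR_pt]
  exact pt_eq (by funext i; rfl) _ _ _

/-- The lift of a tuple. -/
def lf {n : ℕ} (x : Fin (n + 1) → G) : Fin (n + 1) → G × ℤ := fun i => (x i, w (x 0) (x i))

include hX1 in
lemma lf_mem {n : ℕ} (x : Fin (n + 1) → G) (hx : X.mem n x) : (cov w).mem n (lf w x) :=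
  fun i j => hX1 n x hx i j

include hX1 in
/-- Invariant maps descend. -/
theorem descend {Y : Type} [TopologicalSpace Y] (q : C((cov w).R × I, Y))
    (hq : ∀ m z s, q (deck w m z, s) = q (z, s)) :
    ∃ q' : C(X.R × I, Y), ∀ z s, q' (cmap w X hX2 z, s) = q (z, s) := by
  have key : ∀ (n : ℕ) (u : Fin (n + 1) → G × ℤ) (hu : (cov w).mem n u)
      (hl : (cov w).mem n (lf w (Prod.fst ∘ u))) (p : Sx n),
      pt (lf w (Prod.fst ∘ u)) hl p = deck w (-(u 0).2) (pt u hu p) := by
    intro n u hu hl p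
    rw [deck_pt]
    apply pt_eq
    funext i
    simp only [lf, shv, Function.comp_apply, Prod.mk.injEq, true_and]
    rw [hu 0 i]
    ring
  refine ⟨descH (fun n x hx => ⟨fun a => q (pt (lf w x) (lf_mem w X hX1 x hx) a.1, a.2),
    q.continuous.comp (((pt _ _).continuous.comp continuous_fst).prodMk continuous_snd)⟩) ?_, ?_⟩
  · intro n m x hx θ hθ h p s
    change q (pt (lf w (x ∘ θ)) _ p, s) = q (pt (lf w x) _ (stdSimplex.map θ p), s)
    have hm := (cov w).comp _ _ _ θ (lf_mem w X hX1 x hx)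
    rw [← pt_comp (lf w x) (lf_mem w X hX1 x hx) θ hθ hm]
    have h1 : (Prod.fst ∘ (lf w x ∘ θ)) = x ∘ θ := rfl
    have h2 := key m (lf w x ∘ θ) hm (by rw [h1]; exact lf_mem w X hX1 _ h) p
    have h3 : pt (lf w (x ∘ θ)) (lf_mem w X hX1 _ h) p = deck w (-(((lf w x) ∘ θ) 0).2) (pt (lf w x ∘ θ) hm p) := h2
    rw [h3, hq]
  · intro z s
    obtain ⟨n, u, hu, p, rfl⟩ := pt_surj z
    unfold cmap
    rw [mapR_pt, descH_pt]
    change q (pt (lf w (Prod.fst ∘ u)) _ p, s) = _
    rw [key n u hu, hq]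

include hX1 in
lemma cmap_surj (z : X.R) : ∃ y, cmap w X hX2 y = z := by
  obtain ⟨n, x, hx, p, rfl⟩ := pt_surj z
  refine ⟨pt (lf w x) (lf_mem w X hX1 x hx) p, ?_⟩
  unfold cmap
  rw [mapR_pt]
  exact pt_eq (by funext i; rfl) _ _ _

include hX1 hX2 in
/-- If the infinite cyclic cover is contractible, then the base is homotopy equivalent to the
circle. -/
theorem circle (c : (cov w).R) (k : C((cov w).R × I, (cov w).R)) (hk0 : ∀ z, k (z, 0) = z)
    (hk1 : ∀ z, k (z, 1) = c) : Nonempty (ContinuousMap.HomotopyEquiv X.R (AddCircle (1 : ℝ))) := by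
  have hS := deck_add w
  have hS0 := deck_zero w
  set π := cmap w X hX2 with hπ
  -- the map to the circle
  obtain ⟨φ', hφ'⟩ := descend w X hX1 hX2 (Y := AddCircle (1 : ℝ))
    ⟨fun a => ((ht w a.1 : ℝ) : AddCircle (1 : ℝ)), by
      exact (AddCircle.continuous_mk' (1 : ℝ)).comp ((ht w).continuous.comp continuous_fst)⟩ (by
      intro m z s
      change ((ht w (deck w m z) : ℝ) : AddCircle (1 : ℝ)) = ((ht w z : ℝ) : AddCircle (1 : ℝ))
      rw [ht_deck]
      rw [AddCircle.coe_add]
      have : ((m : ℝ) : AddCircle (1 : ℝ)) = 0 := by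
        rw [AddCircle.coe_eq_zero_iff]
        exact ⟨m, by simp⟩
      rw [this, add_zero])
  let φ : C(X.R, AddCircle (1 : ℝ)) := ⟨fun z => φ' (z, 0), φ'.continuous.comp (continuous_id.prodMk continuous_const)⟩
  have hφ : ∀ z, φ (π z) = ((ht w z : ℝ) : AddCircle (1 : ℝ)) := fun z => hφ' z 0
  -- the section
  have hper : Function.Periodic (fun r : ℝ => π (sec (deck w) k c r)) 1 := by
    intro r
    have := sec_equiv (deck w) k hS c hk1 1 r
    change π (sec (deck w) k c (r + 1)) = π (sec (deck w) k c r)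
    rw [Int.cast_one] at this
    rw [this, hπ, cmap_deck]
  let ψ : C(AddCircle (1 : ℝ), X.R) := ⟨hper.lift, by
    have hq : Topology.IsQuotientMap ((↑) : ℝ → AddCircle (1 : ℝ)) := QuotientAddGroup.isQuotientMap_mk _
    rw [hq.continuous_iff]
    exact π.continuous.comp (continuous_sec (deck w) k hS hS0 hk0 c)⟩
  have hψ : ∀ r : ℝ, ψ (r : AddCircle (1 : ℝ)) = π (sec (deck w) k c r) := fun r => hper.lift_coe r
  -- the homotopy on X
  obtain ⟨q, hq⟩ := descend w X hX1 hX2 (Y := X.R)
    ⟨fun a => π (eqH (deck w) k hS hS0 hk0 ((a.1, ht w a.1), a.2)), by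
      exact π.continuous.comp ((eqH (deck w) k hS hS0 hk0).continuous.comp
        ((continuous_fst.prodMk ((ht w).continuous.comp continuous_fst)).prodMk continuous_snd))⟩ (by
      intro m z s
      change π (eqH (deck w) k hS hS0 hk0 ((deck w m z, ht w (deck w m z)), s)) = π (eqH (deck w) k hS hS0 hk0 ((z, ht w z), s))
      rw [ht_deck, eqH_equiv, hπ, cmap_deck])
  have hq' : ∀ z s, q (π z, s) = π (eqH (deck w) k hS hS0 hk0 ((z, ht w z), s)) := fun z s => hq z s
  -- the displacement on the circle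
  have hdel : Function.Periodic (fun r : ℝ => ht w (sec (deck w) k c r) - r) 1 := by
    intro r
    have := sec_equiv (deck w) k hS c hk1 1 r
    rw [Int.cast_one] at this
    change ht w (sec (deck w) k c (r + 1)) - (r + 1) = ht w (sec (deck w) k c r) - r
    rw [this, ht_deck]
    push_cast
    ring
  let δ : C(AddCircle (1 : ℝ), ℝ) := ⟨hdel.lift, by
    have hq : Topology.IsQuotientMap ((↑) : ℝ → AddCircle (1 : ℝ)) := QuotientAddGroup.isQuotientMap_mk _
    rw [hq.continuous_iff]
    exact ((ht w).continuous.comp (continuous_sec (deck w) k hS hS0 hk0 c)).sub continuous_id⟩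
  have hδ : ∀ r : ℝ, δ (r : AddCircle (1 : ℝ)) = ht w (sec (deck w) k c r) - r := fun r => hdel.lift_coe r
  refine ⟨⟨φ, ψ, ?_, ?_⟩⟩
  · -- left
    refine ContinuousMap.Homotopic.symm ⟨⟨⟨fun a => q (a.2, a.1), q.continuous.comp (continuous_snd.prodMk continuous_fst)⟩, ?_, ?_⟩⟩
    · intro z
      obtain ⟨y, rfl⟩ := cmap_surj w X hX1 hX2 z
      change q (π y, 0) = π y
      rw [hq', eqH_zero]
    · intro z
      obtain ⟨y, rfl⟩ := cmap_surj w X hX1 hX2 z
      change q (π y, 1) = ψ (φ (π y))
      rw [hq', eqH_one (deck w) k hS hS0 hk0 c hk1, hφ, hψ]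
  · -- right
    refine ContinuousMap.Homotopic.symm ⟨⟨⟨fun a => a.2 + (((a.1 : ℝ) * δ a.2 : ℝ) : AddCircle (1 : ℝ)), ?_⟩, ?_, ?_⟩⟩
    · exact continuous_snd.add ((AddCircle.continuous_mk' (1 : ℝ)).comp
        ((continuous_subtype_val.comp continuous_fst).mul (δ.continuous.comp continuous_snd)))
    · intro z
      change z + ((((0 : I) : ℝ) * δ z : ℝ) : AddCircle (1 : ℝ)) = z
      simp
    · intro z
      induction z using QuotientAddGroup.induction_on with
      | H r =>
        change (r : AddCircle (1 : ℝ)) + ((((1 : I) : ℝ) * δ (r : AddCircle (1 : ℝ)) : ℝ) : AddCircle (1 : ℝ)) = φ (ψ (r : AddCircle (1 : ℝ)))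
        rw [hψ, hφ, hδ, ← AddCircle.coe_add]
        congr 1
        simp

end cover

end Tup

end Pool.Agent.Q192.EC
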