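import Pool.Agent.Q192.EC.Cover

set_option linter.style.longLine false

/-!
# The integral Heisenberg group of infinite rank
-/

namespace Pool.Agent.Q192.EC

open CategoryTheory Opposite

open scoped unitInterval

/-- The pairing of two finitely supported vectors. -/
def dot (a b : ℕ →₀ ℤ) : ℤ := a.sum fun i m => m * b i

lemma dot_zero_left (b : ℕ →₀ ℤ) : dot 0 b = 0 := by
  unfold dot
  exact Finsupp.sum_zero_index

lemma dot_zero_right (a : ℕ →₀ ℤ) : dot a 0 = 0 := by
  unfold dot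
  simp [Finsupp.sum]

lemma dot_add_left (a a' b : ℕ →₀ ℤ) : dot (a + a') b = dot a b + dot a' b := by
  unfold dot
  exact Finsupp.sum_add_index' (fun i => by simp) (fun i m m' => by ring)

lemma dot_add_right (a b b' : ℕ →₀ ℤ) : dot a (b + b') = dot a b + dot a b' := by
  unfold dot
  rw [← Finsupp.sum_add]
  simp [mul_add]

lemma dot_neg_left (a b : ℕ →₀ ℤ) : dot (-a) b = -dot a b := by
  have := dot_add_left a (-a) b
  rw [add_neg_cancel, dot_zero_left] at this
  linarith

lemma dot_neg_right (a b : ℕ →₀ ℤ) : dot a (-b) = -dot a b := by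
  have := dot_add_right a b (-b)
  rw [add_neg_cancel, dot_zero_right] at this
  linarith

lemma dot_single_left (m : ℕ) (t : ℤ) (b : ℕ →₀ ℤ) : dot (Finsupp.single m t) b = t * b m := by
  unfold dot
  rw [Finsupp.sum_single_index (by simp)]

lemma dot_single_right (a : ℕ →₀ ℤ) (m : ℕ) (t : ℤ) : dot a (Finsupp.single m t) = a m * t := by
  unfold dot
  rw [Finsupp.sum, Finset.sum_eq_single m]
  · simp
  · intro i _ hi
    rw [Finsupp.single_eq_of_ne hi, mul_zero]
  · intro h
    rw [Finsupp.notMem_support_iff.1 h, zero_mul]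

/-- The integral Heisenberg group of infinite rank. -/
@[ext]
structure Heis where
  /-- first block of coordinates -/
  a : ℕ →₀ ℤ
  /-- second block of coordinates -/
  b : ℕ →₀ ℤ
  /-- the central coordinate -/
  z : ℤ

namespace Heis

noncomputable instance : Mul Heis := ⟨fun g h => ⟨g.a + h.a, g.b + h.b, g.z + h.z + dot g.a h.b⟩⟩

instance : One Heis := ⟨⟨0, 0, 0⟩⟩

noncomputable instance : Inv Heis := ⟨fun g => ⟨-g.a, -g.b, -g.z + dot g.a g.b⟩⟩

@[simp] lemma mul_a (g h : Heis) : (g * h).a = g.a + h.a := rfl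
@[simp] lemma mul_b (g h : Heis) : (g * h).b = g.b + h.b := rfl
@[simp] lemma mul_z (g h : Heis) : (g * h).z = g.z + h.z + dot g.a h.b := rfl
@[simp] lemma one_a : (1 : Heis).a = 0 := rfl
@[simp] lemma one_b : (1 : Heis).b = 0 := rfl
@[simp] lemma one_z : (1 : Heis).z = 0 := rfl
@[simp] lemma inv_a (g : Heis) : g⁻¹.a = -g.a := rfl
@[simp] lemma inv_b (g : Heis) : g⁻¹.b = -g.b := rfl
@[simp] lemma inv_z (g : Heis) : g⁻¹.z = -g.z + dot g.a g.b := rfl

noncomputable instance : Group Heis := Group.ofLeftAxioms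
  (by
    intro g h k
    ext1
    · simp only [mul_a]; rw [add_assoc]
    · simp only [mul_b]; rw [add_assoc]
    · simp only [mul_z, mul_a, mul_b]
      rw [dot_add_left, dot_add_right]
      ring)
  (by
    intro g
    ext1
    · simp
    · simp
    · simp [dot_zero_left])
  (by
    intro g
    ext1
    · simp
    · simp
    · simp only [mul_z, inv_z, inv_a, one_z]
      rw [dot_neg_left]
      ring)

/-- The commutator form. -/
def om (g h : Heis) : ℤ := dot g.a h.b - dot h.a g.b

lemma om_self (g : Heis) : om g g = 0 := by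
  unfold om
  ring

lemma om_swap (g h : Heis) : om h g = -om g h := by
  unfold om
  ring

lemma comm_iff (g h : Heis) : g * h = h * g ↔ om g h = 0 := by
  unfold om
  rw [Heis.ext_iff]
  simp only [mul_a, mul_b, mul_z]
  constructor
  · rintro ⟨_, _, h3⟩
    linarith
  · intro h1
    refine ⟨add_comm _ _, add_comm _ _, ?_⟩
    linarith

lemma om_mul_left (g h k : Heis) : om (g * h) k = om g k + om h k := by
  unfold om
  simp only [mul_a, mul_b]
  rw [dot_add_left, dot_add_right]
  ring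

lemma om_mul_right (g h k : Heis) : om g (h * k) = om g h + om g k := by
  unfold om
  simp only [mul_a, mul_b]
  rw [dot_add_left, dot_add_right]
  ring

lemma om_inv_left (g k : Heis) : om g⁻¹ k = -om g k := by
  unfold om
  simp only [inv_a, inv_b]
  rw [dot_neg_left, dot_neg_right]
  ring

lemma om_inv_right (g k : Heis) : om g k⁻¹ = -om g k := by
  unfold om
  simp only [inv_a, inv_b]
  rw [dot_neg_left, dot_neg_right]
  ring

/-- The centre has infinite index. -/
theorem center_index : (Subgroup.center Heis).index = 0 := by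
  rw [Subgroup.index_eq_zero_iff_infinite]
  refine Infinite.of_injective (fun n : ℕ => (QuotientGroup.mk (⟨Finsupp.single 0 (n : ℤ), 0, 0⟩ : Heis) : Heis ⧸ Subgroup.center Heis)) ?_
  intro n m h
  have h1 := QuotientGroup.eq.1 h
  rw [Subgroup.mem_center_iff] at h1
  have h2 := h1 ⟨0, Finsupp.single 0 1, 0⟩
  rw [comm_iff, om_mul_right, om_inv_right] at h2
  unfold om at h2
  simp only [dot_zero_left, dot_single_left, Finsupp.single_eq_same] at h2
  have h3 : (m : ℤ) = n := by linarith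
  exact (by exact_mod_cast h3.symm)

end Heis

open Heis

/-- Adjacency in the infinite cyclic cover. -/
def adj (u v : Heis × ℤ) : Prop := om u.1 v.1 = v.2 - u.2

lemma adj_symm {u v : Heis × ℤ} (h : adj u v) : adj v u := by
  unfold adj at *
  rw [om_swap, h]
  ring

lemma adj_refl (u : Heis × ℤ) : adj u u := by
  unfold adj
  rw [om_self]
  ring

/-- The cover. -/
abbrev KH : Tup (Heis × ℤ) := Tup.cov om

lemma join_of {n : ℕ} {x y : Fin (n + 1) → Heis × ℤ} (h1 : ∀ i j, adj (x i) (x j))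
    (h2 : ∀ i j, adj (x i) (y j)) (h3 : ∀ i j, adj (y i) (y j)) : KH.Join x y := by
  intro i j
  change adj (glue x y i) (glue x y j)
  rcases inl_or_inr i with ⟨k, rfl⟩ | ⟨k, rfl⟩ <;> rcases inl_or_inr j with ⟨l, rfl⟩ | ⟨l, rfl⟩
  · rw [glue_inl, glue_inl]; exact h1 k l
  · rw [glue_inl, glue_inr]; exact h2 k l
  · rw [glue_inr, glue_inl]; exact adj_symm (h2 l k)
  · rw [glue_inr, glue_inr]; exact h3 k l

/-- The vertices supported on the first `m` coordinates. -/
def lev (m : ℕ) : Set (Heis × ℤ) := {u | ∀ i, m ≤ i → u.1.a i = 0 ∧ u.1.b i = 0}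

/-- The base vertex. -/
def bv : Heis × ℤ := (1, 0)

/-- The first map of vertices. -/
noncomputable def f1 (m : ℕ) (u : Heis × ℤ) : Heis × ℤ :=
  (⟨u.1.a + Finsupp.single m u.2, u.1.b, u.1.z⟩, u.2)

/-- The cone vertex. -/
noncomputable def wv (m : ℕ) : Heis × ℤ := (⟨0, Finsupp.single m (-1), 0⟩, 0)

open Classical in
/-- The second map of vertices. -/
noncomputable def g1 (m : ℕ) (u : Heis × ℤ) : Heis × ℤ := if u = bv then bv else wv m

lemma f1_bv (m : ℕ) : f1 m bv = bv := by
  unfold f1 bv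
  simp only [one_a, one_b, one_z, Finsupp.single_zero, add_zero, Prod.mk.injEq, and_true]
  rfl

lemma g1_bv (m : ℕ) : g1 m bv = bv := by
  unfold g1
  rw [if_pos rfl]

lemma g1_or (m : ℕ) (u : Heis × ℤ) : (u = bv ∧ g1 m u = bv) ∨ (g1 m u = wv m) := by
  unfold g1
  by_cases h : u = bv
  · left
    exact ⟨h, by rw [if_pos h]⟩
  · right
    rw [if_neg h]

lemma adj_f1 (m : ℕ) {u v : Heis × ℤ} (hu : u ∈ lev m) (h : adj u v) : adj u (f1 m v) := by
  unfold adj f1 om at *
  simp only
  rw [dot_add_left, dot_single_left, (hu m le_rfl).2]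
  linarith

lemma adj_f1_f1 (m : ℕ) {u v : Heis × ℤ} (hu : u ∈ lev m) (hv : v ∈ lev m) (h : adj u v) :
    adj (f1 m u) (f1 m v) := by
  unfold adj f1 om at *
  simp only
  rw [dot_add_left, dot_single_left, dot_add_left, dot_single_left, (hu m le_rfl).2, (hv m le_rfl).2]
  linarith

lemma adj_f1_wv (m : ℕ) {u : Heis × ℤ} (hu : u ∈ lev m) : adj (f1 m u) (wv m) := by
  unfold adj f1 wv om
  simp only
  rw [dot_single_right, dot_zero_left, Finsupp.add_apply, (hu m le_rfl).1, Finsupp.single_eq_same]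
  ring

lemma adj_f1_bv (m : ℕ) {u : Heis × ℤ} (h : adj u bv) : adj (f1 m u) bv := by
  unfold adj f1 bv om at *
  simp only [one_a, one_b, dot_zero_left, dot_zero_right] at *
  linarith

lemma adj_bv_wv (m : ℕ) : adj bv (wv m) := by
  unfold adj bv wv om
  simp only [one_a, one_b, dot_zero_left, dot_zero_right]

lemma adj_f1_g1 (m : ℕ) {u v : Heis × ℤ} (hu : u ∈ lev m) (h : adj u v) : adj (f1 m u) (g1 m v) := by
  rcases g1_or m v with ⟨rfl, h2⟩ | h2
  · rw [h2]
    exact adj_f1_bv m h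
  · rw [h2]
    exact adj_f1_wv m hu

lemma adj_g1_g1 (m : ℕ) (u v : Heis × ℤ) : adj (g1 m u) (g1 m v) := by
  rcases g1_or m u with ⟨_, h1⟩ | h1 <;> rcases g1_or m v with ⟨_, h2⟩ | h2 <;> rw [h1, h2]
  · exact adj_refl _
  · exact adj_bv_wv m
  · exact adj_symm (adj_bv_wv m)
  · exact adj_refl _

lemma adj_g1_bv (m : ℕ) (u : Heis × ℤ) : adj (g1 m u) bv := by
  rcases g1_or m u with ⟨_, h1⟩ | h1 <;> rw [h1]
  · exact adj_refl _
  · exact adj_symm (adj_bv_wv m)

lemma bv_lev (m : ℕ) : bv ∈ lev m := fun _ _ => ⟨rfl, rfl⟩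

lemma lev_mono : Monotone lev := fun _ _ hab _ hu i hi => hu i (hab.trans hi)

lemma lev_cover (u : Heis × ℤ) : ∃ k, u ∈ lev k := by
  refine ⟨max (u.1.a.support.sup id) (u.1.b.support.sup id) + 1, fun i hi => ?_⟩
  constructor
  · by_contra h
    have := Finset.le_sup (f := id) (Finsupp.mem_support_iff.2 h)
    have := le_max_left (u.1.a.support.sup id) (u.1.b.support.sup id)
    simp only [id] at *
    omega
  · by_contra h
    have := Finset.le_sup (f := id) (Finsupp.mem_support_iff.2 h)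
    have := le_max_right (u.1.a.support.sup id) (u.1.b.support.sup id)
    simp only [id] at *
    omega

lemma f1_lev (m : ℕ) (u : Heis × ℤ) (hu : u ∈ lev m) : f1 m u ∈ lev (m + 1) := by
  intro i hi
  have h1 := hu i (by omega)
  refine ⟨?_, h1.2⟩
  change (u.1.a + Finsupp.single m u.2) i = 0
  rw [Finsupp.add_apply, h1.1, Finsupp.single_eq_of_ne (by omega), add_zero]

lemma wv_lev (m : ℕ) : wv m ∈ lev (m + 1) := by
  intro i hi
  refine ⟨rfl, ?_⟩
  change (Finsupp.single m (-1 : ℤ)) i = 0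
  rw [Finsupp.single_eq_of_ne (by omega)]

lemma g1_lev (m : ℕ) (u : Heis × ℤ) : g1 m u ∈ lev (m + 1) := by
  rcases g1_or m u with ⟨_, h1⟩ | h1 <;> rw [h1]
  · exact bv_lev _
  · exact wv_lev m

lemma KH_bv : KH.mem 0 (fun _ => bv) := fun _ _ => adj_refl bv

/-- The cover is contractible. -/
theorem cover_contractible : ∃ (c : KH.R) (H : C(KH.R × I, KH.R)), (∀ z, H (z, 0) = z) ∧ ∀ z, H (z, 1) = c := by
  have hm : ∀ m, (KH.restr (lev m)).mem 0 (fun _ => bv) := fun m => ⟨KH_bv, fun _ => bv_lev m⟩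
  have h3 := fun m : ℕ => Tup.three (K := KH) (lev m) (lev (m + 1)) bv (bv_lev m) KH_bv (hm m) (f1 m) (g1 m)
    (f1_bv m) (g1_bv m)
    (fun n x hx => join_of (fun i j => hx.1 i j) (fun i j => adj_f1 m (hx.2 i) (hx.1 i j))
      (fun i j => adj_f1_f1 m (hx.2 i) (hx.2 j) (hx.1 i j)))
    (fun n x hx => join_of (fun i j => adj_f1_f1 m (hx.2 i) (hx.2 j) (hx.1 i j))
      (fun i j => adj_f1_g1 m (hx.2 i) (hx.1 i j)) (fun i j => adj_g1_g1 m _ _))
    (fun n x hx => join_of (fun i j => adj_g1_g1 m _ _) (fun i j => adj_g1_bv m _) (fun i j => adj_refl _))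
    (lev_mono (Nat.le_succ m)) (f1_lev m) (fun u _ => g1_lev m u)
  choose N hN0 hN1 hNc hNr using h3
  refine ⟨Tup.vtx bv KH_bv, ?_⟩
  exact Tup.contract lev lev_mono lev_cover N hN0 (Tup.vtx bv KH_bv) (fun m => Tup.vtx bv (hm m))
    (fun m => by
      unfold Tup.vtx
      rw [Tup.incl_pt]) (fun m s => hNc m s) (fun m z => hN1 m z) hNr

end Pool.Agent.Q192.EC
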