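import Pool.Agent.Q192.EC.Tup

set_option linter.style.longLine false

/-!
# Straight line homotopies between maps of realizations
-/

namespace Pool.Agent.Q192.EC

open CategoryTheory Simplicial Opposite

open scoped unitInterval

/-- The first half of the vertices. -/
def inl {n : ℕ} (i : Fin (n + 1)) : Fin (n + 1 + n + 1) := ⟨i.1, by have := i.2; omega⟩

/-- The second half of the vertices. -/
def inr {n : ℕ} (i : Fin (n + 1)) : Fin (n + 1 + n + 1) := ⟨n + 1 + i.1, by have := i.2; omega⟩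

/-- Two tuples, one after the other. -/
def glue {α : Type} {n : ℕ} (a b : Fin (n + 1) → α) (j : Fin (n + 1 + n + 1)) : α :=
  if h : j.1 < n + 1 then a ⟨j.1, h⟩ else b ⟨j.1 - (n + 1), by have := j.2; omega⟩

lemma glue_inl {α : Type} {n : ℕ} (a b : Fin (n + 1) → α) (i : Fin (n + 1)) :
    glue a b (inl i) = a i := by
  unfold glue inl
  rw [dif_pos i.2]

lemma glue_inr {α : Type} {n : ℕ} (a b : Fin (n + 1) → α) (i : Fin (n + 1)) :
    glue a b (inr i) = b i := by
  unfold glue inr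
  rw [dif_neg (by change ¬ (n + 1 + i.1 < n + 1); omega)]
  congr 1
  apply Fin.ext
  change n + 1 + i.1 - (n + 1) = i.1
  omega

lemma inl_or_inr {n : ℕ} (j : Fin (n + 1 + n + 1)) : (∃ i, j = inl i) ∨ ∃ i, j = inr i := by
  by_cases h : j.1 < n + 1
  · exact Or.inl ⟨⟨j.1, h⟩, Fin.ext rfl⟩
  · refine Or.inr ⟨⟨j.1 - (n + 1), by have := j.2; omega⟩, Fin.ext ?_⟩
    simp only [inr]
    omega

lemma inl_inj {n : ℕ} {i k : Fin (n + 1)} : inl i = inl k ↔ i = k := by
  constructor
  · intro h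
    have := congrArg Fin.val h
    simp only [inl] at this
    exact Fin.ext this
  · rintro rfl
    rfl

lemma inr_inj {n : ℕ} {i k : Fin (n + 1)} : inr i = inr k ↔ i = k := by
  constructor
  · intro h
    have := congrArg Fin.val h
    simp only [inr] at this
    exact Fin.ext (by omega)
  · rintro rfl
    rfl

lemma inl_ne_inr {n : ℕ} (i k : Fin (n + 1)) : inl i ≠ inr k := by
  intro h
  have := congrArg Fin.val h
  simp only [inl, inr] at this
  have := i.2
  omega

lemma glue_comp {α β : Type} {n : ℕ} (a b : Fin (n + 1) → α) (f : α → β) (j : Fin (n + 1 + n + 1)) :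
    f (glue a b j) = glue (f ∘ a) (f ∘ b) j := by
  rcases inl_or_inr j with ⟨i, rfl⟩ | ⟨i, rfl⟩
  · rw [glue_inl, glue_inl]; rfl
  · rw [glue_inr, glue_inr]; rfl

lemma sum_two {n : ℕ} (f : Fin (n + 1 + n + 1) → ℝ) :
    ∑ j, f j = ∑ i, f (inl i) + ∑ i, f (inr i) :=
  Fin.sum_univ_add (a := n + 1) (b := n + 1) f

/-- The point `(1 - s) p + s p` of the join of two copies of the simplex. -/
noncomputable def jn {n : ℕ} (p : Sx n) (s : I) : Sx (n + 1 + n) :=
  ⟨glue (fun i => (1 - (s : ℝ)) * p i) (fun i => (s : ℝ) * p i), by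
    constructor
    · intro j
      rcases inl_or_inr j with ⟨i, rfl⟩ | ⟨i, rfl⟩
      · rw [glue_inl]
        exact mul_nonneg (by linarith [s.2.2]) (stdSimplex.zero_le p i)
      · rw [glue_inr]
        exact mul_nonneg s.2.1 (stdSimplex.zero_le p i)
    · rw [sum_two]
      simp only [glue_inl, glue_inr]
      rw [← Finset.mul_sum, ← Finset.mul_sum, stdSimplex.sum_eq_one]
      ring⟩

lemma jn_left {n : ℕ} (p : Sx n) (s : I) (i : Fin (n + 1)) :
    jn p s (inl i) = (1 - (s : ℝ)) * p i :=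
  glue_inl (fun i => (1 - (s : ℝ)) * p i) (fun i => (s : ℝ) * p i) i

lemma jn_right {n : ℕ} (p : Sx n) (s : I) (i : Fin (n + 1)) :
    jn p s (inr i) = (s : ℝ) * p i :=
  glue_inr (fun i => (1 - (s : ℝ)) * p i) (fun i => (s : ℝ) * p i) i

lemma continuous_coord {n : ℕ} (i : Fin (n + 1)) : Continuous (fun p : Sx n => p i) :=
  (continuous_apply i).comp continuous_subtype_val

lemma continuous_jn {n : ℕ} : Continuous (fun a : Sx n × I => jn a.1 a.2) := by
  refine Continuous.subtype_mk ?_ _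
  refine continuous_pi fun j => ?_
  rcases inl_or_inr j with ⟨i, rfl⟩ | ⟨i, rfl⟩
  · simp only [glue_inl]
    exact (continuous_const.sub (continuous_subtype_val.comp continuous_snd)).mul
      ((continuous_coord i).comp continuous_fst)
  · simp only [glue_inr]
    exact (continuous_subtype_val.comp continuous_snd).mul
      ((continuous_coord i).comp continuous_fst)

/-- The reindexing of the join. -/
def jθ {n m : ℕ} (θ : Fin (m + 1) → Fin (n + 1)) : Fin (m + 1 + m + 1) → Fin (n + 1 + n + 1) :=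
  glue (fun i => inl (θ i)) (fun i => inr (θ i))

lemma jθ_left {n m : ℕ} (θ : Fin (m + 1) → Fin (n + 1)) (i : Fin (m + 1)) :
    jθ θ (inl i) = inl (θ i) :=
  glue_inl _ _ i

lemma jθ_right {n m : ℕ} (θ : Fin (m + 1) → Fin (n + 1)) (i : Fin (m + 1)) :
    jθ θ (inr i) = inr (θ i) :=
  glue_inr _ _ i

lemma glue_jθ {α : Type} {n m : ℕ} (a b : Fin (n + 1) → α) (θ : Fin (m + 1) → Fin (n + 1)) :
    glue a b ∘ jθ θ = glue (a ∘ θ) (b ∘ θ) := by
  funext j
  rw [Function.comp_apply]
  rcases inl_or_inr j with ⟨i, rfl⟩ | ⟨i, rfl⟩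
  · rw [jθ_left, glue_inl, glue_inl]; rfl
  · rw [jθ_right, glue_inr, glue_inr]; rfl

lemma jθ_mono {n m : ℕ} (θ : Fin (m + 1) → Fin (n + 1)) (hθ : Monotone θ) : Monotone (jθ θ) := by
  intro a b hab
  rcases inl_or_inr a with ⟨i, rfl⟩ | ⟨i, rfl⟩ <;> rcases inl_or_inr b with ⟨k, rfl⟩ | ⟨k, rfl⟩
  · rw [jθ_left, jθ_left]
    have h1 : i ≤ k := hab
    exact hθ h1
  · rw [jθ_left, jθ_right, Fin.le_def]
    simp only [inl, inr]
    have := (θ i).2
    omega
  · exfalso
    rw [Fin.le_def] at hab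
    simp only [inl, inr] at hab
    have := k.2
    omega
  · rw [jθ_right, jθ_right]
    rw [Fin.le_def] at hab ⊢
    simp only [inr] at hab ⊢
    have h1 : i ≤ k := by rw [Fin.le_def]; omega
    have := hθ h1
    rw [Fin.le_def] at this
    omega

lemma jn_nat {n m : ℕ} (θ : Fin (m + 1) → Fin (n + 1)) (p : Sx m) (s : I) :
    stdSimplex.map (jθ θ) (jn p s) = jn (stdSimplex.map θ p) s := by
  apply stdSimplex.ext
  funext j
  rw [smap_apply, Finset.sum_filter, sum_two]
  simp only [jθ_left, jθ_right, jn_left, jn_right]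
  rcases inl_or_inr j with ⟨k, rfl⟩ | ⟨k, rfl⟩
  · rw [jn_left, smap_apply, Finset.mul_sum, Finset.sum_filter]
    have h2 : ∑ i : Fin (m + 1), (if inr (θ i) = inl k then (s : ℝ) * p i else 0) = 0 := by
      apply Finset.sum_eq_zero
      intro i _
      rw [if_neg (fun h => inl_ne_inr _ _ h.symm)]
    rw [h2, add_zero]
    apply Finset.sum_congr rfl
    intro i _
    simp only [inl_inj]
  · rw [jn_right, smap_apply, Finset.mul_sum, Finset.sum_filter]
    have h2 : ∑ i : Fin (m + 1), (if inl (θ i) = inr k then (1 - (s : ℝ)) * p i else 0) = 0 := by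
      apply Finset.sum_eq_zero
      intro i _
      rw [if_neg (inl_ne_inr _ _)]
    rw [h2, zero_add]
    apply Finset.sum_congr rfl
    intro i _
    simp only [inr_inj]

lemma jn_zero {n : ℕ} (p : Sx n) : jn p 0 = stdSimplex.map (inl (n := n)) p := by
  apply stdSimplex.ext
  funext j
  rw [smap_apply, Finset.sum_filter]
  rcases inl_or_inr j with ⟨k, rfl⟩ | ⟨k, rfl⟩
  · rw [jn_left]
    simp only [Set.Icc.coe_zero, sub_zero, one_mul, inl_inj]
    simp
  · rw [jn_right]
    simp only [Set.Icc.coe_zero, zero_mul]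
    symm
    apply Finset.sum_eq_zero
    intro i _
    rw [if_neg (inl_ne_inr _ _)]

lemma jn_one {n : ℕ} (p : Sx n) : jn p 1 = stdSimplex.map (inr (n := n)) p := by
  apply stdSimplex.ext
  funext j
  rw [smap_apply, Finset.sum_filter]
  rcases inl_or_inr j with ⟨k, rfl⟩ | ⟨k, rfl⟩
  · rw [jn_left]
    simp only [Set.Icc.coe_one, sub_self, zero_mul]
    symm
    apply Finset.sum_eq_zero
    intro i _
    rw [if_neg (fun h => inl_ne_inr _ _ h.symm)]
  · rw [jn_right]
    simp only [Set.Icc.coe_one, one_mul, inr_inj]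
    simp

lemma glue_inl_comp {α : Type} {n : ℕ} (a b : Fin (n + 1) → α) : glue a b ∘ inl = a :=
  funext fun i => glue_inl a b i

lemma glue_inr_comp {α : Type} {n : ℕ} (a b : Fin (n + 1) → α) : glue a b ∘ inr = b :=
  funext fun i => glue_inr a b i

namespace Tup

variable {U W : Type} {K : Tup U} {L : Tup W}

lemma pt_eq {n : ℕ} {x y : Fin (n + 1) → U} (h : x = y) (hx : K.mem n x) (hy : K.mem n y) (p : Sx n) :
    pt x hx p = pt y hy p := by
  subst h
  rfl

/-- Two tuples together form a tuple of `K`. -/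
def Join (K : Tup U) {n : ℕ} (x y : Fin (n + 1) → U) : Prop :=
  K.mem (n + 1 + n) (glue x y)

lemma Join.left {n : ℕ} {x y : Fin (n + 1) → U} (h : K.Join x y) : K.mem n x := by
  have := K.comp _ _ _ (inl (n := n)) h
  rwa [glue_inl_comp] at this

lemma Join.right {n : ℕ} {x y : Fin (n + 1) → U} (h : K.Join x y) : K.mem n y := by
  have := K.comp _ _ _ (inr (n := n)) h
  rwa [glue_inr_comp] at this

lemma Join.comp {n m : ℕ} {x y : Fin (n + 1) → U} (h : K.Join x y) (θ : Fin (m + 1) → Fin (n + 1)) :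
    K.Join (x ∘ θ) (y ∘ θ) := by
  have := K.comp _ _ _ (jθ θ) h
  rwa [glue_jθ] at this

/-- The straight line homotopy of a joinable pair of tuples. -/
noncomputable def line {n : ℕ} (x y : Fin (n + 1) → U) (h : K.Join x y) : C(Sx n × I, K.R) :=
  ⟨fun a => pt (glue x y) h (jn a.1 a.2), (pt (glue x y) h).continuous.comp continuous_jn⟩

lemma line_apply {n : ℕ} (x y : Fin (n + 1) → U) (h : K.Join x y) (p : Sx n) (s : I) :
    line x y h (p, s) = pt (glue x y) h (jn p s) := rfl

lemma line_zero {n : ℕ} (x y : Fin (n + 1) → U) (h : K.Join x y) (p : Sx n) :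
    line x y h (p, 0) = pt x h.left p := by
  rw [line_apply, jn_zero, ← pt_comp (K := K) (glue x y) h inl
    (fun a b hab => hab) (by rw [glue_inl_comp]; exact h.left) p]
  exact pt_eq (glue_inl_comp x y) _ _ _

lemma line_one {n : ℕ} (x y : Fin (n + 1) → U) (h : K.Join x y) (p : Sx n) :
    line x y h (p, 1) = pt y h.right p := by
  rw [line_apply, jn_one, ← pt_comp (K := K) (glue x y) h inr
    (fun a b hab => by
      rw [Fin.le_def] at hab ⊢
      simp only [inr]
      omega) (by rw [glue_inr_comp]; exact h.right) p]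
  exact pt_eq (glue_inr_comp x y) _ _ _

lemma line_comp {n m : ℕ} (x y : Fin (n + 1) → U) (h : K.Join x y) (θ : Fin (m + 1) → Fin (n + 1))
    (hθ : Monotone θ) (h' : K.Join (x ∘ θ) (y ∘ θ)) (p : Sx m) (s : I) :
    line (x ∘ θ) (y ∘ θ) h' (p, s) = line x y h (stdSimplex.map θ p, s) := by
  rw [line_apply, line_apply, ← jn_nat, ← pt_comp (K := K) (glue x y) h (jθ θ) (jθ_mono θ hθ)
    (by rw [glue_jθ]; exact h')]
  exact pt_eq (glue_jθ x y θ).symm _ _ _

/-- The map of realizations of a map of vertices. -/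
noncomputable def mapR (f : U → W) (hf : ∀ (n : ℕ) (x : Fin (n + 1) → U), K.mem n x → L.mem n (f ∘ x)) :
    C(K.R, L.R) :=
  desc (fun _ x hx => pt (f ∘ x) (hf _ x hx)) (fun _ _ x hx θ hθ h p => by
    exact pt_comp (f ∘ x) (hf _ x hx) θ hθ (hf _ _ h) p)

lemma mapR_pt (f : U → W) (hf : ∀ (n : ℕ) (x : Fin (n + 1) → U), K.mem n x → L.mem n (f ∘ x))
    {n : ℕ} (x : Fin (n + 1) → U) (hx : K.mem n x) (p : Sx n) :
    mapR (K := K) (L := L) f hf (pt x hx p) = pt (f ∘ x) (hf _ x hx) p :=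
  desc_pt _ _ _ _ _

/-- The straight line homotopy between two contiguous maps. -/
noncomputable def lineH (f g : U → W)
    (hfg : ∀ (n : ℕ) (x : Fin (n + 1) → U), K.mem n x → L.Join (f ∘ x) (g ∘ x)) :
    C(K.R × I, L.R) :=
  descH (fun _ x hx => line (f ∘ x) (g ∘ x) (hfg _ x hx)) (fun _ _ x hx θ hθ h p s => by
    exact line_comp (f ∘ x) (g ∘ x) (hfg _ x hx) θ hθ (hfg _ _ h) p s)

lemma lineH_pt (f g : U → W)
    (hfg : ∀ (n : ℕ) (x : Fin (n + 1) → U), K.mem n x → L.Join (f ∘ x) (g ∘ x))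
    {n : ℕ} (x : Fin (n + 1) → U) (hx : K.mem n x) (p : Sx n) (s : I) :
    lineH (K := K) (L := L) f g hfg (pt x hx p, s) = line (f ∘ x) (g ∘ x) (hfg _ x hx) (p, s) :=
  descH_pt _ _ _ _ _ _

end Tup

end Pool.Agent.Q192.EC
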