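import Pool.Agent.Q192.EC.Line

set_option linter.style.longLine false

/-!
# Extending homotopies of full subcomplexes
-/

namespace Pool.Agent.Q192.EC

open CategoryTheory Simplicial Opposite

open scoped unitInterval

section weights

open Classical in
/-- The total weight of the vertices in `D`. -/
noncomputable def lw {U : Type} (D : Set U) {n : ℕ} (x : Fin (n + 1) → U) (p : Sx n) : ℝ :=
  ∑ i, if x i ∈ D then p i else 0

variable {U : Type} (D : Set U) {n : ℕ} (x : Fin (n + 1) → U)

lemma lw_nonneg (p : Sx n) : 0 ≤ lw D x p := by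
  classical
  apply Finset.sum_nonneg
  intro i _
  split_ifs
  · exact stdSimplex.zero_le p i
  · exact le_rfl

lemma lw_compl (p : Sx n) : (∑ i, open Classical in if x i ∈ D then 0 else p i) = 1 - lw D x p := by
  classical
  have h : lw D x p + (∑ i, if x i ∈ D then 0 else p i) = 1 := by
    unfold lw
    rw [← Finset.sum_add_distrib, ← stdSimplex.sum_eq_one p]
    apply Finset.sum_congr rfl
    intro i _
    split_ifs <;> simp
  linarith

lemma lw_le_one (p : Sx n) : lw D x p ≤ 1 := by
  classical
  have h := lw_compl D x p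
  have : 0 ≤ ∑ i, (if x i ∈ D then 0 else p i) := by
    apply Finset.sum_nonneg
    intro i _
    split_ifs
    · exact le_rfl
    · exact stdSimplex.zero_le p i
  linarith

lemma continuous_lw : Continuous (fun p : Sx n => lw D x p) := by
  classical
  unfold lw
  refine continuous_finsetSum _ fun i _ => ?_
  by_cases h : x i ∈ D
  · simp only [h, if_true]
    exact continuous_coord i
  · simp only [h, if_false]
    exact continuous_const

lemma lw_nat {m : ℕ} (θ : Fin (m + 1) → Fin (n + 1)) (p : Sx m) :
    lw D (x ∘ θ) p = lw D x (stdSimplex.map θ p) := by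
  classical
  unfold lw
  have h1 : ∀ j, (if x j ∈ D then stdSimplex.map θ p j else 0) =
      ∑ i with θ i = j, (if x (θ i) ∈ D then p i else 0) := by
    intro j
    rw [smap_apply]
    by_cases h : x j ∈ D
    · rw [if_pos h]
      apply Finset.sum_congr rfl
      intro i hi
      simp only [Finset.mem_filter, Finset.mem_univ, true_and] at hi
      rw [hi, if_pos h]
    · rw [if_neg h]
      symm
      apply Finset.sum_eq_zero
      intro i hi
      simp only [Finset.mem_filter, Finset.mem_univ, true_and] at hi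
      rw [hi, if_neg h]
  simp only [h1]
  rw [Finset.sum_fiberwise]
  rfl

open Classical in
/-- The factor of a vertex in the push towards `D`. -/
noncomputable def fac (u : U) (L s : ℝ) : ℝ :=
  if u ∈ D then 1 + s * ((1 - L) / max L (1 / 2)) else 1 - s * (L / max L (1 / 2))

lemma max_pos (L : ℝ) : 0 < max L (1 / 2) := lt_of_lt_of_le (by norm_num) (le_max_right _ _)

lemma fac_nonneg (u : U) {L s : ℝ} (h0 : 0 ≤ L) (h1 : L ≤ 1) (hs0 : 0 ≤ s) (hs1 : s ≤ 1) :
    0 ≤ fac D u L s := by
  classical
  unfold fac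
  have hM := max_pos L
  split_ifs
  · have : 0 ≤ (1 - L) / max L (1 / 2) := div_nonneg (by linarith) hM.le
    have := mul_nonneg hs0 this
    linarith
  · have h2 : L / max L (1 / 2) ≤ 1 := (div_le_one hM).2 (le_max_left _ _)
    have h3 : 0 ≤ L / max L (1 / 2) := div_nonneg h0 hM.le
    nlinarith

lemma continuous_fac {A : Type} [TopologicalSpace A] (u : U) {f g : A → ℝ} (hf : Continuous f)
    (hg : Continuous g) : Continuous (fun a => fac D u (f a) (g a)) := by
  classical
  have h0 : ∀ a, max (f a) (1 / 2) ≠ 0 := fun a => (max_pos (f a)).ne'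
  unfold fac
  by_cases h : u ∈ D
  · simp only [h, if_true]
    exact continuous_const.add (hg.mul ((continuous_const.sub hf).div (hf.max continuous_const) h0))
  · simp only [h, if_false]
    exact continuous_const.sub (hg.mul (hf.div (hf.max continuous_const) h0))

/-- Pushing a point of the simplex of `x` towards the face of the vertices in `D`. -/
noncomputable def push (p : Sx n) (s : I) : Sx n :=
  ⟨fun i => p i * fac D (x i) (lw D x p) s, by
    classical
    constructor
    · intro i
      exact mul_nonneg (stdSimplex.zero_le p i)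
        (fac_nonneg D _ (lw_nonneg D x p) (lw_le_one D x p) s.2.1 s.2.2)
    · have h1 : ∀ i, p i * fac D (x i) (lw D x p) s =
          (if x i ∈ D then p i else 0) * (1 + s * ((1 - lw D x p) / max (lw D x p) (1 / 2))) +
          (if x i ∈ D then 0 else p i) * (1 - s * (lw D x p / max (lw D x p) (1 / 2))) := by
        intro i
        unfold fac
        split_ifs <;> ring
      simp only [h1]
      rw [Finset.sum_add_distrib, ← Finset.sum_mul, ← Finset.sum_mul]
      have h2 := lw_compl D x p
      have h3 : (∑ i, if x i ∈ D then p i else 0) = lw D x p := rfl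
      rw [h3, h2]
      ring⟩

lemma push_apply (p : Sx n) (s : I) (i : Fin (n + 1)) :
    push D x p s i = p i * fac D (x i) (lw D x p) s := rfl

lemma continuous_push : Continuous (fun a : Sx n × I => push D x a.1 a.2) := by
  refine Continuous.subtype_mk ?_ _
  refine continuous_pi fun i => ?_
  exact ((continuous_coord i).comp continuous_fst).mul
    (continuous_fac D (x i) ((continuous_lw D x).comp continuous_fst)
      (continuous_subtype_val.comp continuous_snd))

lemma push_nat {m : ℕ} (θ : Fin (m + 1) → Fin (n + 1)) (p : Sx m) (s : I) :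
    stdSimplex.map θ (push D (x ∘ θ) p s) = push D x (stdSimplex.map θ p) s := by
  apply stdSimplex.ext
  funext j
  rw [smap_apply, push_apply, smap_apply, Finset.sum_mul]
  apply Finset.sum_congr rfl
  intro i hi
  simp only [Finset.mem_filter, Finset.mem_univ, true_and] at hi
  rw [push_apply, lw_nat, Function.comp_apply, hi]

lemma push_zero (p : Sx n) : push D x p 0 = p := by
  apply stdSimplex.ext
  funext i
  rw [push_apply]
  unfold fac
  split_ifs <;> simp

lemma lw_eq_one (p : Sx n) (h : ∀ i, x i ∈ D) : lw D x p = 1 := by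
  unfold lw
  rw [← stdSimplex.sum_eq_one p]
  apply Finset.sum_congr rfl
  intro i _
  rw [if_pos (h i)]

lemma push_of_mem (p : Sx n) (s : I) (h : ∀ i, x i ∈ D) : push D x p s = p := by
  apply stdSimplex.ext
  funext i
  rw [push_apply, lw_eq_one D x p h]
  unfold fac
  rw [if_pos (h i)]
  simp

lemma push_one_mem (p : Sx n) (h : 1 / 2 ≤ lw D x p) (i : Fin (n + 1)) (hi : push D x p 1 i ≠ 0) :
    x i ∈ D := by
  by_contra hn
  apply hi
  rw [push_apply]
  unfold fac
  rw [if_neg hn, max_eq_left h, div_self (by linarith)]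
  simp

end weights

namespace Tup

variable {U : Type} (K : Tup U)

/-- The full subcomplex on the vertices in `D`. -/
def restr (D : Set U) : Tup U where
  mem n x := K.mem n x ∧ ∀ i, x i ∈ D
  comp n m x θ h := ⟨K.comp n m x θ h.1, fun i => h.2 (θ i)⟩

/-- The inclusion of a full subcomplex. -/
noncomputable def incl (D : Set U) : C((K.restr D).R, K.R) :=
  mapR (K := K.restr D) (L := K) id (fun _ _ h => And.left h)

variable {K}

lemma incl_pt (D : Set U) {n : ℕ} (x : Fin (n + 1) → U) (hx : (K.restr D).mem n x) (p : Sx n) :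
    K.incl D (pt x hx p) = pt x hx.1 p :=
  mapR_pt _ _ _ _ _

lemma pt_mem_range (D : Set U) {n : ℕ} (x : Fin (n + 1) → U) (hx : K.mem n x) (h : ∀ i, x i ∈ D)
    (p : Sx n) : pt x hx p ∈ Set.range (K.incl D) :=
  ⟨pt (K := K.restr D) x ⟨hx, h⟩ p, incl_pt D x ⟨hx, h⟩ p⟩

open Classical in
/-- Replace the vertices outside `D` by a vertex in `D`. -/
noncomputable def fold (D : Set U) {n : ℕ} (x : Fin (n + 1) → U) (h : ∃ j, x j ∈ D) :
    Fin (n + 1) → U :=
  x ∘ fun i => if x i ∈ D then i else h.choose

lemma fold_mem (D : Set U) {n : ℕ} (x : Fin (n + 1) → U) (hx : K.mem n x) (h : ∃ j, x j ∈ D) :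
    (K.restr D).mem n (fold D x h) := by
  classical
  refine ⟨K.comp _ _ _ _ hx, fun i => ?_⟩
  unfold fold
  rw [Function.comp_apply]
  split_ifs with h1
  · exact h1
  · exact h.choose_spec

lemma fold_of_mem (D : Set U) {n : ℕ} (x : Fin (n + 1) → U) (h : ∃ j, x j ∈ D) (i : Fin (n + 1))
    (hi : x i ∈ D) : fold D x h i = x i := by
  unfold fold
  rw [Function.comp_apply, if_pos hi]

/-- The homotopy pushing the realization towards the full subcomplex on `D`. -/
noncomputable def pushH (K : Tup U) (D : Set U) : C(K.R × I, K.R) :=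
  descH (fun _ x hx => ⟨fun a => pt x hx (push D x a.1 a.2), (pt x hx).continuous.comp (continuous_push D x)⟩)
    (fun _ _ x hx θ hθ h p s => by
      change pt (x ∘ θ) h (push D (x ∘ θ) p s) = pt x hx (push D x (stdSimplex.map θ p) s)
      rw [pt_comp x hx θ hθ, push_nat])

lemma pushH_pt (D : Set U) {n : ℕ} (x : Fin (n + 1) → U) (hx : K.mem n x) (p : Sx n) (s : I) :
    K.pushH D (pt x hx p, s) = pt x hx (push D x p s) :=
  descH_pt _ _ _ _ _ _

/-- The amplitude of the second stage. -/
noncomputable def amp (L : ℝ) : I := Set.projIcc 0 1 zero_le_one (2 * L - 1)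

lemma continuous_amp : Continuous amp :=
  continuous_projIcc.comp ((continuous_const.mul continuous_id).sub continuous_const)

lemma amp_half : amp (1 / 2) = 0 := by
  unfold amp
  norm_num

lemma amp_one : amp 1 = 1 := by
  unfold amp
  norm_num

section ext

variable (D : Set U) (N : C((K.restr D).R × I, K.R)) (hN : ∀ z, N (z, 0) = K.incl D z)

include hN in
lemma stage_agree {n : ℕ} (x : Fin (n + 1) → U) (hx : K.mem n x) (h : ∃ j, x j ∈ D) (p : Sx n)
    (u : I) (hL : 1 / 2 = lw D x p) :
    N (pt (fold D x h) (fold_mem D x hx h) (push D x p 1), u * amp (lw D x p)) =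
      pt x hx (push D x p 1) := by
  rw [← hL, amp_half, mul_zero, hN, incl_pt]
  apply pt_congr
  intro i hi
  exact fold_of_mem D x h i (push_one_mem D x p hL.le i hi)

open Classical in
/-- The second stage on a simplex. -/
noncomputable def stage {n : ℕ} (x : Fin (n + 1) → U) (hx : K.mem n x) : C(Sx n × I, K.R) :=
  if h : ∃ j, x j ∈ D then
    ⟨fun a => if 1 / 2 ≤ lw D x a.1 then
        N (pt (fold D x h) (fold_mem D x hx h) (push D x a.1 1), a.2 * amp (lw D x a.1))
      else pt x hx (push D x a.1 1), by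
      have hp : Continuous (fun a : Sx n × I => push D x a.1 1) :=
        (continuous_push D x).comp (continuous_fst.prodMk continuous_const)
      refine Continuous.if_le ?_ ?_ continuous_const ((continuous_lw D x).comp continuous_fst) ?_
      · exact N.continuous.comp (((pt _ (fold_mem D x hx h)).continuous.comp hp).prodMk
          (continuous_snd.mul (continuous_amp.comp ((continuous_lw D x).comp continuous_fst))))
      · exact (pt x hx).continuous.comp hp
      · intro a ha
        exact stage_agree D N hN x hx h a.1 a.2 ha⟩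
  else ⟨fun a => pt x hx (push D x a.1 1),
      (pt x hx).continuous.comp ((continuous_push D x).comp (continuous_fst.prodMk continuous_const))⟩

lemma stage_pos {n : ℕ} (x : Fin (n + 1) → U) (hx : K.mem n x) (h : ∃ j, x j ∈ D) (p : Sx n)
    (u : I) (hL : 1 / 2 ≤ lw D x p) :
    stage D N hN x hx (p, u) =
      N (pt (fold D x h) (fold_mem D x hx h) (push D x p 1), u * amp (lw D x p)) := by
  unfold stage
  rw [dif_pos h]
  change (if 1 / 2 ≤ lw D x p then _ else _) = _
  rw [if_pos hL]

lemma exists_of_lw {n : ℕ} (x : Fin (n + 1) → U) (p : Sx n) (hL : 1 / 2 ≤ lw D x p) :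
    ∃ j, x j ∈ D := by
  classical
  by_contra h
  push Not at h
  have : lw D x p = 0 := by
    unfold lw
    apply Finset.sum_eq_zero
    intro i _
    rw [if_neg (h i)]
  linarith

lemma stage_neg {n : ℕ} (x : Fin (n + 1) → U) (hx : K.mem n x) (p : Sx n)
    (u : I) (hL : ¬ 1 / 2 ≤ lw D x p) :
    stage D N hN x hx (p, u) = pt x hx (push D x p 1) := by
  unfold stage
  by_cases h : ∃ j, x j ∈ D
  · rw [dif_pos h]
    change (if 1 / 2 ≤ lw D x p then _ else _) = _
    rw [if_neg hL]
  · rw [dif_neg h]
    rfl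

/-- The second stage. -/
noncomputable def stageH : C(K.R × I, K.R) :=
  descH (fun _ x hx => stage D N hN x hx)
    (fun n m x hx θ hθ h p s => by
      by_cases hL : 1 / 2 ≤ lw D x (stdSimplex.map θ p)
      · have hL' : 1 / 2 ≤ lw D (x ∘ θ) p := by rw [lw_nat]; exact hL
        have hj := exists_of_lw D _ _ hL
        have hj' := exists_of_lw D _ _ hL'
        rw [stage_pos D N hN x hx hj _ _ hL, stage_pos D N hN _ h hj' _ _ hL', lw_nat]
        have h1 : pt (fold D (x ∘ θ) hj') (fold_mem D (x ∘ θ) h hj') (push D (x ∘ θ) p 1) =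
            pt (fold D x hj) (fold_mem D x hx hj) (push D x (stdSimplex.map θ p) 1) := by
          rw [← push_nat, ← pt_comp _ (fold_mem D x hx hj) θ hθ ((K.restr D).comp _ _ _ _ (fold_mem D x hx hj))]
          apply pt_congr
          intro i hi
          have := push_one_mem D (x ∘ θ) p hL' i hi
          rw [fold_of_mem D _ _ _ this, Function.comp_apply, Function.comp_apply]
          exact (fold_of_mem D x hj (θ i) this).symm
        rw [h1]
      · have hL' : ¬ 1 / 2 ≤ lw D (x ∘ θ) p := by rw [lw_nat]; exact hL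
        rw [stage_neg D N hN x hx _ _ hL, stage_neg D N hN _ h _ _ hL', ← push_nat, pt_comp x hx θ hθ])

lemma stageH_pt {n : ℕ} (x : Fin (n + 1) → U) (hx : K.mem n x) (p : Sx n) (s : I) :
    stageH D N hN (pt x hx p, s) = stage D N hN x hx (p, s) :=
  descH_pt _ _ _ _ _ _

lemma stageH_incl (z : (K.restr D).R) (s : I) : stageH D N hN (K.incl D z, s) = N (z, s) := by
  obtain ⟨n, x, hx, p, rfl⟩ := pt_surj z
  rw [incl_pt, stageH_pt]
  have hL := lw_eq_one D x p hx.2
  have hj : ∃ j, x j ∈ D := ⟨0, hx.2 0⟩
  rw [stage_pos D N hN x hx.1 hj p s (by rw [hL]; norm_num), hL, amp_one, mul_one,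
    push_of_mem D x p 1 hx.2]
  have : fold D x hj = x := funext fun i => fold_of_mem D x hj i (hx.2 i)
  rw [pt_eq this _ hx]

lemma pushH_incl (z : (K.restr D).R) (s : I) : K.pushH D (K.incl D z, s) = K.incl D z := by
  obtain ⟨n, x, hx, p, rfl⟩ := pt_surj z
  rw [incl_pt, pushH_pt, push_of_mem D x p s hx.2]

lemma stageH_zero (z : K.R) : stageH D N hN (z, 0) = K.pushH D (z, 1) := by
  obtain ⟨n, x, hx, p, rfl⟩ := pt_surj z
  rw [stageH_pt, pushH_pt]
  by_cases hL : 1 / 2 ≤ lw D x p
  · have hj := exists_of_lw D _ _ hL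
    rw [stage_pos D N hN x hx hj p 0 hL, zero_mul, hN, incl_pt]
    apply pt_congr
    intro i hi
    exact fold_of_mem D x hj i (push_one_mem D x p hL i hi)
  · rw [stage_neg D N hN x hx p 0 hL]

lemma pushH_zero (z : K.R) : K.pushH D (z, 0) = z := by
  obtain ⟨n, x, hx, p, rfl⟩ := pt_surj z
  rw [pushH_pt, push_zero]

/-- The extension of the homotopy `N` to all of `K`, rescaled. -/
noncomputable def extH : C(K.R × I, K.R) :=
  ⟨fun a => if (a.2 : ℝ) ≤ 1 / 2 then K.pushH D (a.1, Set.projIcc 0 1 zero_le_one (2 * (a.2 : ℝ)))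
      else stageH D N hN (a.1, Set.projIcc 0 1 zero_le_one (2 * (a.2 : ℝ) - 1)), by
    have h2 : Continuous (fun a : K.R × I => (a.2 : ℝ)) := continuous_subtype_val.comp continuous_snd
    refine Continuous.if_le ?_ ?_ h2 continuous_const ?_
    · exact (K.pushH D).continuous.comp (continuous_fst.prodMk
        (continuous_projIcc.comp (continuous_const.mul h2)))
    · exact (stageH D N hN).continuous.comp (continuous_fst.prodMk
        (continuous_projIcc.comp ((continuous_const.mul h2).sub continuous_const)))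
    · intro a ha
      rw [ha]
      have h3 : (Set.projIcc 0 1 zero_le_one (2 * (1 / 2 : ℝ)) : I) = 1 := by norm_num
      have h4 : (Set.projIcc 0 1 zero_le_one (2 * (1 / 2 : ℝ) - 1) : I) = 0 := by norm_num
      rw [h3, h4, stageH_zero]⟩

lemma extH_zero (z : K.R) : extH D N hN (z, 0) = z := by
  change (if (((0 : I) : ℝ)) ≤ 1 / 2 then K.pushH D (z, Set.projIcc 0 1 zero_le_one (2 * (((0 : I) : ℝ)))) else _) = _
  rw [if_pos (by norm_num)]
  have h3 : (Set.projIcc 0 1 zero_le_one (2 * ((0 : I) : ℝ)) : I) = 0 := by norm_num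
  rw [h3, pushH_zero]

lemma extH_one (z : K.R) : extH D N hN (z, 1) = stageH D N hN (z, 1) := by
  change (if (((1 : I) : ℝ)) ≤ 1 / 2 then _ else stageH D N hN (z, Set.projIcc 0 1 zero_le_one (2 * (((1 : I) : ℝ)) - 1))) = _
  rw [if_neg (by norm_num)]
  have h3 : (Set.projIcc 0 1 zero_le_one (2 * ((1 : I) : ℝ) - 1) : I) = 1 := by norm_num
  rw [h3]

lemma extH_one_incl (z : (K.restr D).R) : extH D N hN (K.incl D z, 1) = N (z, 1) := by
  rw [extH_one, stageH_incl]

lemma extH_fixed (z : (K.restr D).R) (hz : ∀ s, N (z, s) = K.incl D z) (s : I) :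
    extH D N hN (K.incl D z, s) = K.incl D z := by
  change (if (s : ℝ) ≤ 1 / 2 then K.pushH D (K.incl D z, _) else stageH D N hN (K.incl D z, _)) = _
  split_ifs
  · rw [pushH_incl]
  · rw [stageH_incl, hz]

lemma extH_one_range (E : Set U) (hE : ∀ z s, N (z, s) ∈ Set.range (K.incl E)) (z : K.R)
    (hz : z ∈ Set.range (K.incl E)) : extH D N hN (z, 1) ∈ Set.range (K.incl E) := by
  obtain ⟨w, rfl⟩ := hz
  obtain ⟨n, x, hx, p, rfl⟩ := pt_surj w
  rw [incl_pt, extH_one, stageH_pt]
  by_cases hL : 1 / 2 ≤ lw D x p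
  · have hj := exists_of_lw D _ _ hL
    rw [stage_pos D N hN x hx.1 hj p _ hL]
    exact hE _ _
  · rw [stage_neg D N hN x hx.1 p _ hL]
    exact pt_mem_range E x hx.1 hx.2 _

end ext

end Tup

end Pool.Agent.Q192.EC
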