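import Mathlib

set_option linter.style.longLine false

/-!
# Maps out of the geometric realization of a simplicial set

The characteristic maps `chi X x` of the simplices of a simplicial set, and the universal
property of the realization in terms of them.
-/

namespace Pool.Agent.Q192.EC

open CategoryTheory Simplicial Opposite

/-- The standard topological simplex. -/
abbrev Sx (n : ℕ) := stdSimplex ℝ (Fin (n + 1))

/-- The characteristic map of an `n`-simplex. -/
noncomputable def chi (X : SSet.{0}) {n : ℕ} (x : X.obj (op ⦋n⦌)) : C(Sx n, |X|) :=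
  TopCat.toSSetObjEquiv _ _ ((sSetTopAdj.unit.app X).app _ x)

lemma chi_map (X : SSet.{0}) {n m : ℕ} (x : X.obj (op ⦋n⦌)) (f : ⦋m⦌ ⟶ ⦋n⦌) (p : Sx m) :
    chi X (X.map f.op x) p = chi X x (stdSimplex.map f p) := by
  unfold chi
  have h := (sSetTopAdj.unit.app X).naturality f.op
  have h3 : (sSetTopAdj.unit.app X).app (op ⦋m⦌) (X.map f.op x) =
    (TopCat.toSSet.obj (|X|)).map f.op ((sSetTopAdj.unit.app X).app (op ⦋n⦌) x) := by
    exact ConcreteCategory.congr_hom h x
  rw [h3]
  exact TopCat.toSSetObjEquiv_naturality_apply f _ p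

/-- A natural family of continuous maps from the simplices of `X` to a space. -/
structure NatFam (X : SSet.{0}) (Y : Type) [TopologicalSpace Y] where
  /-- the maps -/
  f : ∀ (n : ℕ) (_ : X.obj (op ⦋n⦌)), C(Sx n, Y)
  nat : ∀ (n m : ℕ) (x : X.obj (op ⦋n⦌)) (g : ⦋m⦌ ⟶ ⦋n⦌) (p : Sx m),
    f m (X.map g.op x) p = f n x (stdSimplex.map g p)

variable {X : SSet.{0}} {Y : Type} [TopologicalSpace Y]

/-- The simplicial map of a natural family. -/
noncomputable def NatFam.hom (F : NatFam X Y) : X ⟶ TopCat.toSSet.obj (TopCat.of Y) where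
  app n := ↾fun x => (TopCat.toSSetObjEquiv (TopCat.of Y) n).symm (F.f n.unop.len x)
  naturality n m g := by
    ext x
    apply (TopCat.toSSetObjEquiv (TopCat.of Y) m).injective
    ext p
    have h1 := F.nat n.unop.len m.unop.len x g.unop p
    have h2 := TopCat.toSSetObjEquiv_naturality_apply (X := TopCat.of Y) g.unop
      ((TopCat.toSSetObjEquiv (TopCat.of Y) n).symm (F.f n.unop.len x)) p
    change (TopCat.toSSetObjEquiv (TopCat.of Y) m) ((TopCat.toSSetObjEquiv (TopCat.of Y) m).symm
      (F.f m.unop.len (X.map g x))) p = TopCat.toSSetObjEquiv _ _ ((TopCat.toSSet.obj (TopCat.of Y)).map g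
        ((TopCat.toSSetObjEquiv (TopCat.of Y) n).symm (F.f n.unop.len x))) p
    rw [Equiv.apply_symm_apply]
    refine Eq.trans h1 ?_
    refine Eq.trans ?_ h2.symm
    rw [Equiv.apply_symm_apply]

/-- The continuous map defined by a natural family. -/
noncomputable def desc (F : NatFam X Y) : C(|X|, Y) :=
  ((sSetTopAdj.homEquiv X (TopCat.of Y)).symm F.hom).hom

lemma desc_chi (F : NatFam X Y) {n : ℕ} (x : X.obj (op ⦋n⦌)) (p : Sx n) :
    desc F (chi X x p) = F.f n x p := by
  have h := sSetTopAdj.homEquiv_unit (X := X) (Y := TopCat.of Y)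
    (f := (sSetTopAdj.homEquiv X (TopCat.of Y)).symm F.hom)
  rw [Equiv.apply_symm_apply] at h
  have h2 : F.hom.app (op ⦋n⦌) x = (TopCat.toSSet.map ((sSetTopAdj.homEquiv X (TopCat.of Y)).symm F.hom)).app (op ⦋n⦌)
      ((sSetTopAdj.unit.app X).app (op ⦋n⦌) x) := by
    have := congrArg (fun t => t.app (op ⦋n⦌)) h
    exact ConcreteCategory.congr_hom this x
  have h3 := congrArg (fun t => TopCat.toSSetObjEquiv (TopCat.of Y) (op ⦋n⦌) t p) h2
  have h4 : TopCat.toSSetObjEquiv (TopCat.of Y) (op ⦋n⦌) (F.hom.app (op ⦋n⦌) x) = F.f n x := by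
    change TopCat.toSSetObjEquiv (TopCat.of Y) (op ⦋n⦌) ((TopCat.toSSetObjEquiv (TopCat.of Y) (op ⦋n⦌)).symm (F.f n x)) = _
    rw [Equiv.apply_symm_apply]
  simp only [h4] at h3
  rw [h3]
  rfl

lemma hom_ext {f g : C(|X|, Y)} (h : ∀ (n : ℕ) (x : X.obj (op ⦋n⦌)) (p : Sx n),
    f (chi X x p) = g (chi X x p)) : f = g := by
  have : TopCat.ofHom f = (TopCat.ofHom g : |X| ⟶ TopCat.of Y) := by
    apply (sSetTopAdj.homEquiv X (TopCat.of Y)).injective
    rw [sSetTopAdj.homEquiv_unit, sSetTopAdj.homEquiv_unit]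
    ext n x
    apply (TopCat.toSSetObjEquiv (TopCat.of Y) n).injective
    ext p
    exact h _ x p
  exact congrArg TopCat.Hom.hom this

lemma chi_surj (z : |X|) : ∃ (n : ℕ) (x : X.obj (op ⦋n⦌)) (p : Sx n), chi X x p = z := by
  classical
  let S : Set (|X|) := {z | ∃ (n : ℕ) (x : X.obj (op ⦋n⦌)) (p : Sx n), chi X x p = z}
  let _ : TopologicalSpace (ULift Prop) := ⊤
  let f : C(|X|, ULift Prop) := ⟨fun z => ULift.up (z ∈ S), continuous_top⟩
  let g : C(|X|, ULift Prop) := ⟨fun _ => ULift.up True, continuous_top⟩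
  have hfg : f = g := by
    apply hom_ext
    intro n x p
    change ULift.up (_ ∈ S) = ULift.up True
    congr 1
    exact propext ⟨fun _ => trivial, fun _ => ⟨n, x, p, rfl⟩⟩
  have h1 := congrArg (fun t : C(|X|, ULift Prop) => (t z).down) hfg
  have h2 : (z ∈ S) = True := h1
  exact of_eq_true h2

/-- The realization carries the final topology of the characteristic maps. -/
lemma continuous_of_chi {f : |X| → Y} (h : ∀ (n : ℕ) (x : X.obj (op ⦋n⦌)),
    Continuous (fun p : Sx n => f (chi X x p))) : Continuous f := by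
  let F : NatFam X Y := ⟨fun n x => ⟨_, h n x⟩, fun n m x g p => by
    change f (chi X (X.map g.op x) p) = f (chi X x _)
    rw [chi_map]⟩
  have h1 : f = desc F := by
    funext z
    obtain ⟨n, x, p, rfl⟩ := chi_surj z
    rw [desc_chi]
    rfl
  rw [h1]
  exact (desc F).continuous

end Pool.Agent.Q192.EC
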