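import Pool.Agent.Q192.EC.Push

set_option linter.style.longLine false

/-!
# Contracting the realization of an increasing union
-/

namespace Pool.Agent.Q192.EC

open CategoryTheory Opposite

open scoped unitInterval

section conc

variable {Z Y : Type} [TopologicalSpace Z] [TopologicalSpace Y]

/-- Concatenation of homotopies. -/
noncomputable def conc (F G : C(Z × I, Y)) (h : ∀ z, F (z, 1) = G (z, 0)) : C(Z × I, Y) :=
  ⟨fun a => if (a.2 : ℝ) ≤ 1 / 2 then F (a.1, Set.projIcc 0 1 zero_le_one (2 * (a.2 : ℝ)))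
      else G (a.1, Set.projIcc 0 1 zero_le_one (2 * (a.2 : ℝ) - 1)), by
    have h2 : Continuous (fun a : Z × I => (a.2 : ℝ)) := continuous_subtype_val.comp continuous_snd
    refine Continuous.if_le ?_ ?_ h2 continuous_const ?_
    · exact F.continuous.comp (continuous_fst.prodMk
        (continuous_projIcc.comp (continuous_const.mul h2)))
    · exact G.continuous.comp (continuous_fst.prodMk
        (continuous_projIcc.comp ((continuous_const.mul h2).sub continuous_const)))
    · intro a ha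
      rw [ha]
      have h3 : (Set.projIcc 0 1 zero_le_one (2 * (1 / 2 : ℝ)) : I) = 1 := by norm_num
      have h4 : (Set.projIcc 0 1 zero_le_one (2 * (1 / 2 : ℝ) - 1) : I) = 0 := by norm_num
      rw [h3, h4, h]⟩

lemma conc_apply (F G : C(Z × I, Y)) (h : ∀ z, F (z, 1) = G (z, 0)) (z : Z) (s : I) :
    conc F G h (z, s) = if (s : ℝ) ≤ 1 / 2 then F (z, Set.projIcc 0 1 zero_le_one (2 * (s : ℝ)))
      else G (z, Set.projIcc 0 1 zero_le_one (2 * (s : ℝ) - 1)) := rfl

lemma conc_zero (F G : C(Z × I, Y)) (h : ∀ z, F (z, 1) = G (z, 0)) (z : Z) :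
    conc F G h (z, 0) = F (z, 0) := by
  rw [conc_apply, if_pos (by norm_num)]
  have h3 : (Set.projIcc 0 1 zero_le_one (2 * ((0 : I) : ℝ)) : I) = 0 := by norm_num
  rw [h3]

lemma conc_one (F G : C(Z × I, Y)) (h : ∀ z, F (z, 1) = G (z, 0)) (z : Z) :
    conc F G h (z, 1) = G (z, 1) := by
  rw [conc_apply, if_neg (by norm_num)]
  have h3 : (Set.projIcc 0 1 zero_le_one (2 * ((1 : I) : ℝ) - 1) : I) = 1 := by norm_num
  rw [h3]

lemma conc_ind (F G : C(Z × I, Y)) (h : ∀ z, F (z, 1) = G (z, 0)) (z : Z) (P : Y → Prop)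
    (hF : ∀ s, P (F (z, s))) (hG : ∀ s, P (G (z, s))) (s : I) : P (conc F G h (z, s)) := by
  rw [conc_apply]
  split_ifs
  · exact hF _
  · exact hG _

end conc

/-- The time function of the `j`-th homotopy. -/
noncomputable def phi (j : ℕ) (t : I) : I :=
  Set.projIcc 0 1 zero_le_one (((t : ℝ) * (j + 1) - j) * (j + 2))

lemma continuous_phi (j : ℕ) : Continuous (phi j) :=
  continuous_projIcc.comp (((continuous_subtype_val.mul continuous_const).sub continuous_const).mul
    continuous_const)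

lemma phi_zero (j : ℕ) (t : I) (h : (t : ℝ) * (j + 1) ≤ j) : phi j t = 0 := by
  unfold phi
  have : ((t : ℝ) * (j + 1) - j) * (j + 2) ≤ 0 := by
    apply mul_nonpos_of_nonpos_of_nonneg
    · linarith
    · positivity
  exact Set.projIcc_of_le_left _ this

lemma phi_one (j : ℕ) (t : I) (h : ((j : ℝ) + 1) ≤ (t : ℝ) * (j + 2)) : phi j t = 1 := by
  unfold phi
  have : (1 : ℝ) ≤ ((t : ℝ) * (j + 1) - j) * (j + 2) := by
    have h2 : ((t : ℝ) * (j + 1) - j) * (j + 2) = (t : ℝ) * (j + 2) * (j + 1) - j * (j + 2) := by ring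
    rw [h2]
    have h3 : ((j : ℝ) + 1) * (j + 1) ≤ (t : ℝ) * (j + 2) * (j + 1) :=
      mul_le_mul_of_nonneg_right h (by positivity)
    nlinarith
  exact Set.projIcc_of_right_le _ this

section tele

variable {T : Type} [TopologicalSpace T] (F : ℕ → C(T × I, T))

/-- The composition of the first `m` homotopies. -/
noncomputable def tel : ℕ → T → I → T
  | 0, z, _ => z
  | (m + 1), z, t => F m (tel m z t, phi m t)

lemma continuous_tel (m : ℕ) : Continuous (fun a : T × I => tel F m a.1 a.2) := by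
  induction m with
  | zero => exact continuous_fst
  | succ m ih =>
    exact (F m).continuous.comp (ih.prodMk ((continuous_phi m).comp continuous_snd))

variable (h0 : ∀ m z, F m (z, 0) = z)

include h0 in
lemma tel_stable (m : ℕ) (t : I) (ht : (t : ℝ) * (m + 1) ≤ m) (z : T) (k : ℕ) (hk : m ≤ k) :
    tel F k z t = tel F m z t := by
  induction k, hk using Nat.le_induction with
  | base => rfl
  | succ k hk ih =>
    change F k (tel F k z t, phi k t) = _
    rw [phi_zero, h0, ih]
    have h1 : (m : ℝ) ≤ k := by exact_mod_cast hk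
    have h2 : (t : ℝ) ≤ 1 := t.2.2
    nlinarith

variable (c : T) (R : ℕ → Set T) (hc : ∀ m s, F m (c, s) = c)
  (hR : ∀ m k, m < k → ∀ z ∈ R k, F m (z, 1) ∈ R k) (h1 : ∀ k, ∀ z ∈ R k, F k (z, 1) = c)

include hR in
lemma tel_mem (k : ℕ) (z : T) (hz : z ∈ R k) (t : I) (m : ℕ) (hm : m ≤ k)
    (ht : ∀ j, j < m → phi j t = 1) : tel F m z t ∈ R k := by
  induction m with
  | zero => exact hz
  | succ m ih =>
    change F m (tel F m z t, phi m t) ∈ _
    rw [ht m (Nat.lt_succ_self m)]
    exact hR m k hm _ (ih (by omega) (fun j hj => ht j (by omega)))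

include hR h1 hc in
lemma tel_const (k : ℕ) (z : T) (hz : z ∈ R k) (t : I) (ht : ((k : ℝ) + 1) ≤ (t : ℝ) * (k + 2))
    (m : ℕ) (hm : k + 1 ≤ m) : tel F m z t = c := by
  have hphi : ∀ j, j < k + 1 → phi j t = 1 := by
    intro j hj
    apply phi_one
    have h1 : (j : ℝ) ≤ k := by exact_mod_cast (Nat.lt_succ_iff.1 hj)
    have h2 : (t : ℝ) ≤ 1 := t.2.2
    nlinarith
  induction m, hm using Nat.le_induction with
  | base =>
    change F k (tel F k z t, phi k t) = c
    rw [hphi k (by omega)]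
    exact h1 k _ (tel_mem F R hR k z hz t k le_rfl (fun j hj => hphi j (by omega)))
  | succ m hm ih =>
    change F m (tel F m z t, phi m t) = c
    rw [ih, hc]

open Classical in
/-- The infinite composition. -/
noncomputable def telH (z : T) (t : I) : T :=
  if t = 1 then c else tel F ⌈1 / (1 - (t : ℝ))⌉₊ z t

include h0 hR h1 hc in
lemma telH_eq (k : ℕ) (z : T) (hz : z ∈ R k) (t : I) : telH F c z t = tel F (k + 1) z t := by
  unfold telH
  split_ifs with h
  · subst h
    exact (tel_const F c R hc hR h1 k z hz 1 (by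
      simp only [Set.Icc.coe_one, one_mul]
      linarith) (k + 1) le_rfl).symm
  · set M := ⌈1 / (1 - (t : ℝ))⌉₊ with hM
    have ht1 : (t : ℝ) < 1 := lt_of_le_of_ne t.2.2 (fun h' => h (Subtype.ext h'))
    have hpos : 0 < 1 - (t : ℝ) := by linarith
    have hM1 : 1 / (1 - (t : ℝ)) ≤ M := Nat.le_ceil _
    have hM2 : 1 ≤ (M : ℝ) * (1 - (t : ℝ)) := by
      rw [div_le_iff₀ hpos] at hM1
      exact hM1
    have hM3 : (t : ℝ) * (M + 1) ≤ M := by nlinarith [t.2.1]
    by_cases hk : (t : ℝ) * ((k + 1 : ℕ) + 1) ≤ (k + 1 : ℕ)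
    · rcases le_total M (k + 1) with h2 | h2
      · exact (tel_stable F h0 M t hM3 z (k + 1) h2).symm
      · exact tel_stable F h0 (k + 1) t hk z M h2
    · push Not at hk
      have hk2 : ((k : ℝ) + 1) ≤ (t : ℝ) * (k + 2) := by
        push_cast at hk
        linarith
      have hMk : k + 1 ≤ M := by
        by_contra hlt
        push Not at hlt
        have h3 : (M : ℝ) + 1 ≤ k + 1 := by exact_mod_cast hlt
        have h4 : (t : ℝ) * (k + 2) ≤ k + 1 := by nlinarith
        push_cast at hk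
        linarith
      rw [tel_const F c R hc hR h1 k z hz t hk2 M hMk, tel_const F c R hc hR h1 k z hz t hk2 (k + 1) le_rfl]

include h0 in
lemma telH_zero (z : T) : telH F c z 0 = z := by
  unfold telH
  rw [if_neg (by simp)]
  have := tel_stable F h0 0 0 (by simp) z ⌈1 / (1 - ((0 : I) : ℝ))⌉₊ (Nat.zero_le _)
  rw [this]
  rfl

lemma telH_one (z : T) : telH F c z 1 = c := by
  unfold telH
  rw [if_pos rfl]

end tele

namespace Tup

variable {U : Type} {K : Tup U}

/-- Contractibility of the realization of an increasing union of full subcomplexes with pointed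
null-homotopic inclusions. -/
theorem contract (D : ℕ → Set U) (hD : Monotone D) (hU : ∀ u, ∃ k, u ∈ D k)
    (N : ∀ m, C((K.restr (D m)).R × I, K.R)) (hN0 : ∀ m z, N m (z, 0) = K.incl (D m) z)
    (c : K.R) (c' : ∀ m, (K.restr (D m)).R) (hc : ∀ m, K.incl (D m) (c' m) = c)
    (hNc : ∀ m s, N m (c' m, s) = c) (hN1 : ∀ m z, N m (z, 1) = c)
    (hNr : ∀ m z s, N m (z, s) ∈ Set.range (K.incl (D (m + 1)))) :
    ∃ H : C(K.R × I, K.R), (∀ z, H (z, 0) = z) ∧ ∀ z, H (z, 1) = c := by
  classical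
  have hmono : ∀ a b, a ≤ b → Set.range (K.incl (D a)) ⊆ Set.range (K.incl (D b)) := by
    rintro a b hab _ ⟨w, rfl⟩
    obtain ⟨n, x, hx, p, rfl⟩ := pt_surj w
    rw [incl_pt]
    exact pt_mem_range (D b) x hx.1 (fun i => hD hab (hx.2 i)) p
  let F : ℕ → C(K.R × I, K.R) := fun m => extH (D m) (N m) (hN0 m)
  have h0 : ∀ m z, F m (z, 0) = z := fun m z => extH_zero _ _ _ z
  have hFc : ∀ m s, F m (c, s) = c := by
    intro m s
    rw [← hc m]
    exact extH_fixed _ _ _ (c' m) (fun s => by rw [hNc, hc]) s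
  have hR : ∀ m k, m < k → ∀ z ∈ Set.range (K.incl (D k)), F m (z, 1) ∈ Set.range (K.incl (D k)) := by
    intro m k hmk z hz
    exact extH_one_range (D m) (N m) (hN0 m) (D k) (fun z s => hmono _ _ hmk (hNr m z s)) z hz
  have h1 : ∀ k, ∀ z ∈ Set.range (K.incl (D k)), F k (z, 1) = c := by
    rintro k _ ⟨w, rfl⟩
    exact (extH_one_incl (D k) (N k) (hN0 k) w).trans (hN1 k w)
  have hlev : ∀ (n : ℕ) (x : Fin (n + 1) → U), ∃ k, ∀ i, x i ∈ D k := by
    intro n x
    choose k hk using fun i => hU (x i)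
    exact ⟨Finset.univ.sup k, fun i => hD (Finset.le_sup (Finset.mem_univ i)) (hk i)⟩
  have hcont : ∀ (n : ℕ) (x : Fin (n + 1) → U) (hx : K.mem n x),
      Continuous (fun a : Sx n × I => telH F c (pt x hx a.1) a.2) := by
    intro n x hx
    obtain ⟨k, hk⟩ := hlev n x
    have : (fun a : Sx n × I => telH F c (pt x hx a.1) a.2) =
        fun a => tel F (k + 1) (pt x hx a.1) a.2 := by
      funext a
      exact telH_eq F h0 c (fun k => Set.range (K.incl (D k))) hFc hR h1 k _
        (pt_mem_range (D k) x hx hk a.1) a.2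
    rw [this]
    exact (continuous_tel F (k + 1)).comp (((pt x hx).continuous.comp continuous_fst).prodMk continuous_snd)
  refine ⟨descH (fun n x hx => ⟨_, hcont n x hx⟩) (fun n m x hx θ hθ h p s => ?_), ?_, ?_⟩
  · change telH F c (pt (x ∘ θ) h p) s = telH F c (pt x hx (stdSimplex.map θ p)) s
    rw [pt_comp x hx θ hθ]
  · intro z
    obtain ⟨n, x, hx, p, rfl⟩ := pt_surj z
    rw [descH_pt]
    exact telH_zero F h0 c _
  · intro z
    obtain ⟨n, x, hx, p, rfl⟩ := pt_surj z
    rw [descH_pt]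
    exact telH_one F c _

/-- The base point of a vertex. -/
noncomputable def vtx (u : U) (h : K.mem 0 (fun _ => u)) : K.R := pt (fun _ : Fin 1 => u) h default

lemma pt_const (u : U) (h : K.mem 0 (fun _ => u)) {n : ℕ} (x : Fin (n + 1) → U) (hx : K.mem n x)
    (hu : ∀ i, x i = u) (p : Sx n) : pt x hx p = vtx u h := by
  have h1 : x = (fun _ : Fin 1 => u) ∘ (fun _ : Fin (n + 1) => (0 : Fin 1)) := funext hu
  have h2 : K.mem n ((fun _ : Fin 1 => u) ∘ (fun _ : Fin (n + 1) => (0 : Fin 1))) := h1 ▸ hx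
  rw [pt_eq h1 hx h2, pt_comp (fun _ : Fin 1 => u) h (fun _ => (0 : Fin 1)) (fun _ _ _ => le_rfl) h2]
  unfold vtx
  congr 1
  exact Subsingleton.elim _ _

/-- The null-homotopy built from three contiguities. -/
theorem three (D E : Set U) (c : U) (hcD : c ∈ D) (hcm : K.mem 0 (fun _ => c))
    (hcm' : (K.restr D).mem 0 (fun _ => c)) (f g : U → U) (hf : f c = c) (hg : g c = c)
    (j1 : ∀ (n : ℕ) (x : Fin (n + 1) → U), (K.restr D).mem n x → K.Join x (f ∘ x))
    (j2 : ∀ (n : ℕ) (x : Fin (n + 1) → U), (K.restr D).mem n x → K.Join (f ∘ x) (g ∘ x))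
    (j3 : ∀ (n : ℕ) (x : Fin (n + 1) → U), (K.restr D).mem n x → K.Join (g ∘ x) (fun _ => c))
    (e0 : D ⊆ E) (e1 : ∀ u ∈ D, f u ∈ E) (e2 : ∀ u ∈ D, g u ∈ E) :
    ∃ N : C((K.restr D).R × I, K.R), (∀ z, N (z, 0) = K.incl D z) ∧ (∀ z, N (z, 1) = vtx c hcm) ∧
      (∀ s, N (vtx c hcm', s) = vtx c hcm) ∧ ∀ z s, N (z, s) ∈ Set.range (K.incl E) := by
  classical
  let L1 : C((K.restr D).R × I, K.R) := lineH id f (fun n x hx => j1 n x hx)
  let L2 : C((K.restr D).R × I, K.R) := lineH f g (fun n x hx => j2 n x hx)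
  let L3 : C((K.restr D).R × I, K.R) := lineH g (fun _ => c) (fun n x hx => j3 n x hx)
  have a23 : ∀ z, L2 (z, 1) = L3 (z, 0) := by
    intro z
    obtain ⟨n, x, hx, p, rfl⟩ := pt_surj z
    change lineH f g _ (pt x hx p, 1) = lineH g (fun _ => c) _ (pt x hx p, 0)
    rw [lineH_pt, lineH_pt, line_one, line_zero]
  have a12 : ∀ z, L1 (z, 1) = conc L2 L3 a23 (z, 0) := by
    intro z
    rw [conc_zero]
    obtain ⟨n, x, hx, p, rfl⟩ := pt_surj z
    change lineH id f _ (pt x hx p, 1) = lineH f g _ (pt x hx p, 0)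
    rw [lineH_pt, lineH_pt, line_one, line_zero]
  have hE : ∀ u, u ∈ D → u ∈ E := fun u hu => e0 hu
  have hcE := e0 hcD
  refine ⟨conc L1 (conc L2 L3 a23) a12, ?_, ?_, ?_, ?_⟩
  · intro z
    rw [conc_zero]
    obtain ⟨n, x, hx, p, rfl⟩ := pt_surj z
    change lineH id f _ (pt x hx p, 0) = _
    rw [lineH_pt, line_zero, incl_pt]
    rfl
  · intro z
    rw [conc_one, conc_one]
    obtain ⟨n, x, hx, p, rfl⟩ := pt_surj z
    change lineH g (fun _ => c) _ (pt x hx p, 1) = _
    rw [lineH_pt, line_one]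
    exact pt_const c hcm _ _ (fun i => rfl) p
  · intro s
    refine conc_ind L1 _ a12 _ (fun y => y = vtx c hcm) (fun s => ?_)
      (fun s => conc_ind L2 L3 a23 _ (fun y => y = vtx c hcm) (fun s => ?_) (fun s => ?_) s) s
    · change lineH id f _ (pt (fun _ : Fin 1 => c) hcm' default, s) = _
      rw [lineH_pt, line_apply]
      apply pt_const
      intro i
      rcases inl_or_inr (n := 0) i with ⟨k, rfl⟩ | ⟨k, rfl⟩
      · rw [glue_inl]; rfl
      · rw [glue_inr]; exact hf
    · change lineH f g _ (pt (fun _ : Fin 1 => c) hcm' default, s) = _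
      rw [lineH_pt, line_apply]
      apply pt_const
      intro i
      rcases inl_or_inr (n := 0) i with ⟨k, rfl⟩ | ⟨k, rfl⟩
      · rw [glue_inl]; exact hf
      · rw [glue_inr]; exact hg
    · change lineH g (fun _ => c) _ (pt (fun _ : Fin 1 => c) hcm' default, s) = _
      rw [lineH_pt, line_apply]
      apply pt_const
      intro i
      rcases inl_or_inr (n := 0) i with ⟨k, rfl⟩ | ⟨k, rfl⟩
      · rw [glue_inl]; exact hg
      · rw [glue_inr]; rfl
  · intro z s
    obtain ⟨n, x, hx, p, rfl⟩ := pt_surj z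
    refine conc_ind L1 _ a12 _ (fun y => y ∈ Set.range (K.incl E)) (fun s => ?_)
      (fun s => conc_ind L2 L3 a23 _ (fun y => y ∈ Set.range (K.incl E)) (fun s => ?_) (fun s => ?_) s) s
    · change lineH id f _ (pt x hx p, s) ∈ _
      rw [lineH_pt, line_apply]
      apply pt_mem_range
      intro i
      rcases inl_or_inr i with ⟨k, rfl⟩ | ⟨k, rfl⟩
      · rw [glue_inl]; exact hE _ (hx.2 k)
      · rw [glue_inr]; exact e1 _ (hx.2 k)
    · change lineH f g _ (pt x hx p, s) ∈ _
      rw [lineH_pt, line_apply]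
      apply pt_mem_range
      intro i
      rcases inl_or_inr i with ⟨k, rfl⟩ | ⟨k, rfl⟩
      · rw [glue_inl]; exact e1 _ (hx.2 k)
      · rw [glue_inr]; exact e2 _ (hx.2 k)
    · change lineH g (fun _ => c) _ (pt x hx p, s) ∈ _
      rw [lineH_pt, line_apply]
      apply pt_mem_range
      intro i
      rcases inl_or_inr i with ⟨k, rfl⟩ | ⟨k, rfl⟩
      · rw [glue_inl]; exact e2 _ (hx.2 k)
      · rw [glue_inr]; exact hcE

end Tup

end Pool.Agent.Q192.EC
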