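import Pool.Agent.Q192.EC.Real

set_option linter.style.longLine false

/-!
# Simplicial sets of tuples and their realizations
-/

namespace Pool.Agent.Q192.EC

open CategoryTheory Simplicial Opposite

/-- A family of finite tuples in `U`, closed under reindexing. -/
structure Tup (U : Type) where
  /-- the tuples of length `n + 1` -/
  mem : ∀ n : ℕ, (Fin (n + 1) → U) → Prop
  comp : ∀ (n m : ℕ) (x : Fin (n + 1) → U) (θ : Fin (m + 1) → Fin (n + 1)),
    mem n x → mem m (x ∘ θ)

lemma smap_apply {n m : ℕ} (θ : Fin (m + 1) → Fin (n + 1)) (p : Sx m) (j : Fin (n + 1)) :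
    stdSimplex.map θ p j = ∑ i with θ i = j, p i := by
  rw [stdSimplex.map_coe, FunOnFinite.linearMap_apply_apply]

namespace Tup

variable {U W : Type} (K : Tup U)

/-- The simplicial set of the tuples. -/
def sset : SSet.{0} where
  obj n := {x : Fin (n.unop.len + 1) → U // K.mem _ x}
  map f := ↾fun x => ⟨x.1 ∘ f.unop.toOrderHom, K.comp _ _ _ _ x.2⟩
  map_id n := by ext x; rfl
  map_comp f g := by ext x; rfl

/-- The realization. -/
noncomputable abbrev R : TopCat.{0} := |K.sset|

variable {K}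

/-- The characteristic map of a tuple. -/
noncomputable def pt {n : ℕ} (x : Fin (n + 1) → U) (hx : K.mem n x) : C(Sx n, K.R) :=
  chi K.sset (n := n) ⟨x, hx⟩

lemma pt_comp {n m : ℕ} (x : Fin (n + 1) → U) (hx : K.mem n x) (θ : Fin (m + 1) → Fin (n + 1))
    (hθ : Monotone θ) (h : K.mem m (x ∘ θ)) (p : Sx m) :
    pt (x ∘ θ) h p = pt x hx (stdSimplex.map θ p) := by
  have := chi_map K.sset (n := n) (m := m) ⟨x, hx⟩ (SimplexCategory.Hom.mk ⟨θ, hθ⟩) p
  exact this

lemma pt_surj (z : K.R) : ∃ (n : ℕ) (x : Fin (n + 1) → U) (hx : K.mem n x) (p : Sx n),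
    pt x hx p = z := by
  obtain ⟨n, x, p, h⟩ := chi_surj z
  exact ⟨n, x.1, x.2, p, h⟩

section desc

variable {Y : Type} [TopologicalSpace Y]

/-- The map out of the realization of a natural family. -/
noncomputable def desc (f : ∀ (n : ℕ) (x : Fin (n + 1) → U), K.mem n x → C(Sx n, Y))
    (nat : ∀ (n m : ℕ) (x : Fin (n + 1) → U) (hx : K.mem n x) (θ : Fin (m + 1) → Fin (n + 1))
      (_ : Monotone θ) (h : K.mem m (x ∘ θ)) (p : Sx m), f m (x ∘ θ) h p = f n x hx (stdSimplex.map θ p)) :
    C(K.R, Y) :=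
  EC.desc (X := K.sset) ⟨fun n x => f n x.1 x.2, fun n m x g p =>
    nat n m x.1 x.2 g.toOrderHom g.toOrderHom.monotone _ p⟩

lemma desc_pt (f : ∀ (n : ℕ) (x : Fin (n + 1) → U), K.mem n x → C(Sx n, Y))
    (nat : ∀ (n m : ℕ) (x : Fin (n + 1) → U) (hx : K.mem n x) (θ : Fin (m + 1) → Fin (n + 1))
      (_ : Monotone θ) (h : K.mem m (x ∘ θ)) (p : Sx m), f m (x ∘ θ) h p = f n x hx (stdSimplex.map θ p))
    {n : ℕ} (x : Fin (n + 1) → U) (hx : K.mem n x) (p : Sx n) :
    desc f nat (pt x hx p) = f n x hx p :=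
  EC.desc_chi (X := K.sset) _ _ _

omit [TopologicalSpace Y] in
lemma ext_pt {f g : K.R → Y} (h : ∀ (n : ℕ) (x : Fin (n + 1) → U) (hx : K.mem n x) (p : Sx n),
    f (pt x hx p) = g (pt x hx p)) (z : K.R) : f z = g z := by
  obtain ⟨n, x, hx, p, rfl⟩ := pt_surj z
  exact h n x hx p

lemma continuous_of_pt {f : K.R → Y} (h : ∀ (n : ℕ) (x : Fin (n + 1) → U) (hx : K.mem n x),
    Continuous (fun p : Sx n => f (pt x hx p))) : Continuous f :=
  continuous_of_chi (X := K.sset) fun n x => h n x.1 x.2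

/-- The homotopy out of the realization of a natural family. -/
noncomputable def descH (f : ∀ (n : ℕ) (x : Fin (n + 1) → U), K.mem n x → C(Sx n × unitInterval, Y))
    (nat : ∀ (n m : ℕ) (x : Fin (n + 1) → U) (hx : K.mem n x) (θ : Fin (m + 1) → Fin (n + 1))
      (_ : Monotone θ) (h : K.mem m (x ∘ θ)) (p : Sx m) (s : unitInterval),
      f m (x ∘ θ) h (p, s) = f n x hx (stdSimplex.map θ p, s)) :
    C(K.R × unitInterval, Y) :=
  (desc (Y := C(unitInterval, Y)) (fun n x hx => (f n x hx).curry) (fun n m x hx θ hθ h p => by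
    ext s
    exact nat n m x hx θ hθ h p s)).uncurry

lemma descH_pt (f : ∀ (n : ℕ) (x : Fin (n + 1) → U), K.mem n x → C(Sx n × unitInterval, Y))
    (nat : ∀ (n m : ℕ) (x : Fin (n + 1) → U) (hx : K.mem n x) (θ : Fin (m + 1) → Fin (n + 1))
      (_ : Monotone θ) (h : K.mem m (x ∘ θ)) (p : Sx m) (s : unitInterval),
      f m (x ∘ θ) h (p, s) = f n x hx (stdSimplex.map θ p, s))
    {n : ℕ} (x : Fin (n + 1) → U) (hx : K.mem n x) (p : Sx n) (s : unitInterval) :
    descH f nat (pt x hx p, s) = f n x hx (p, s) := by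
  have h := desc_pt (Y := C(unitInterval, Y)) (fun n x hx => (f n x hx).curry)
    (fun n m x hx θ hθ h p => by
      ext s
      exact nat n m x hx θ hθ h p s) x hx p
  exact congrArg (fun g : C(unitInterval, Y) => g s) h

end desc

lemma exists_map_eq {n : ℕ} (p : Sx n) (J : Set (Fin (n + 1))) (hJ : ∀ i, p i ≠ 0 → i ∈ J) :
    ∃ (m : ℕ) (θ : Fin (m + 1) → Fin (n + 1)) (q : Sx m), Monotone θ ∧ (∀ i, θ i ∈ J) ∧
      stdSimplex.map θ q = p := by
  classical
  let S : Finset (Fin (n + 1)) := Finset.univ.filter (fun i => p i ≠ 0)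
  have hS : S.Nonempty := by
    by_contra h
    rw [Finset.not_nonempty_iff_eq_empty] at h
    have h1 : ∑ i, p i = 0 := by
      apply Finset.sum_eq_zero
      intro i _
      by_contra h2
      have : i ∈ S := by simp [S, h2]
      rw [h] at this
      simp at this
    have := stdSimplex.sum_eq_one p
    linarith
  obtain ⟨m, hm⟩ : ∃ m, S.card = m + 1 := ⟨S.card - 1, by have := hS.card_pos; omega⟩
  let θ : Fin (m + 1) → Fin (n + 1) := S.orderEmbOfFin hm
  have hθ : StrictMono θ := (S.orderEmbOfFin hm).strictMono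
  have hr : ∀ i, i ∈ S ↔ ∃ k, θ k = i := by
    intro i
    have := S.range_orderEmbOfFin hm
    constructor
    · intro hi
      have h1 : i ∈ Set.range (S.orderEmbOfFin hm) := by rw [this]; exact hi
      exact h1
    · rintro ⟨k, rfl⟩
      exact S.orderEmbOfFin_mem hm k
  have hq : (fun k => p (θ k)) ∈ stdSimplex ℝ (Fin (m + 1)) := by
    refine ⟨fun k => stdSimplex.zero_le p _, ?_⟩
    rw [← stdSimplex.sum_eq_one p]
    have h1 : ∑ i, p i = ∑ i ∈ S, p i := by
      symm
      apply Finset.sum_subset (Finset.subset_univ _)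
      intro i _ hi
      by_contra h2
      exact hi (by simp [S, h2])
    rw [h1]
    have h2 : S = Finset.univ.image θ := by
      ext i
      rw [hr]
      simp
    rw [h2, Finset.sum_image (fun a _ b _ h => hθ.injective h)]
  refine ⟨m, θ, ⟨_, hq⟩, hθ.monotone, fun i => hJ _ ?_, ?_⟩
  · have := (hr (θ i)).2 ⟨i, rfl⟩
    simpa [S] using this
  · apply stdSimplex.ext
    funext j
    rw [smap_apply]
    by_cases hj : j ∈ S
    · obtain ⟨k, rfl⟩ := (hr j).1 hj
      rw [Finset.sum_eq_single k]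
      · rfl
      · intro b hb hbk
        simp only [Finset.mem_filter, Finset.mem_univ, true_and] at hb
        exact absurd (hθ.injective hb) hbk
      · intro h
        simp at h
    · have h0 : p j = 0 := by
        by_contra h
        exact hj (by simp [S, h])
      rw [h0]
      apply Finset.sum_eq_zero
      intro i hi
      simp only [Finset.mem_filter, Finset.mem_univ, true_and] at hi
      exact absurd ((hr j).2 ⟨i, hi⟩) hj

/-- The characteristic maps of two tuples agree where the tuples agree. -/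
lemma pt_congr {n : ℕ} (x y : Fin (n + 1) → U) (hx : K.mem n x) (hy : K.mem n y) (p : Sx n)
    (h : ∀ i, p i ≠ 0 → x i = y i) : pt x hx p = pt y hy p := by
  obtain ⟨m, θ, q, hθ, hJ, rfl⟩ := exists_map_eq p {i | x i = y i} h
  rw [← pt_comp x hx θ hθ (K.comp _ _ _ _ hx), ← pt_comp y hy θ hθ (K.comp _ _ _ _ hy)]
  have : x ∘ θ = y ∘ θ := funext hJ
  congr 1
  simp only [this]

end Tup

end Pool.Agent.Q192.EC
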